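import Mathlib

set_option autoImplicit false

namespace Pool.Agent.Results.MP_38cb75_co.LargeRatio

open Finset

variable {α : Type*} [DecidableEq α]

/-- The adversary can survive `k` further tests when the defective set is known to lie in `F`. -/
def L : ℕ → Set (Finset α) → Prop
  | 0, F => ∃ D ∈ F, ∃ D' ∈ F, D ≠ D'
  | k + 1, F => ∀ S : Finset α,
      L k {D | D ∈ F ∧ (S ∩ D).Nonempty} ∨ L k {D | D ∈ F ∧ ¬ (S ∩ D).Nonempty}

/-- The family of a state. -/
def Fam (B A C : Finset α) (π : α → α) (R : Finset (Finset α)) (t : ℕ) : Set (Finset α) :=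
  {D | B ⊆ D ∧ D ⊆ B ∪ A ∪ C ∧ D.card = B.card + C.card + t ∧
    (∀ e ∈ R, (e ∩ D).Nonempty) ∧ ∀ c ∈ C, c ∈ D ∨ π c ∈ D}

/-- Well-formed states. -/
structure St (B A C : Finset α) (π : α → α) (R : Finset (Finset α)) : Prop where
  hBA : Disjoint B A
  hBC : Disjoint B C
  hAC : Disjoint A C
  hπ : ∀ c ∈ C, π c ∈ A
  hinj : Set.InjOn π (C : Set α)
  hR : ∀ e ∈ R, e ⊆ A
  hcard : ∀ e ∈ R, e.card = 2 ∨ e.card = 3
  htok : ∀ c ∈ C, ∀ e ∈ R, π c ∉ e

/-- Subsets of `A` hitting all members of `R`. -/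
def hit (R : Finset (Finset α)) (A : Finset α) : Finset (Finset α) :=
  A.powerset.filter (fun X => ∀ e ∈ R, (e ∩ X).Nonempty)

/-- Number of `t`-subsets of `A` hitting all members of `R`. -/
def NN (R : Finset (Finset α)) (A : Finset α) (t : ℕ) : ℕ :=
  ((hit R A).filter (fun X => X.card = t)).card

/-- The weight function. -/
noncomputable def z (R : Finset (Finset α)) (A : Finset α) (t : ℕ) : ℝ :=
  ∑ X ∈ (hit R A).filter (fun X => X.card ≤ t), (50 / 13 : ℝ) ^ (t - X.card)

/-- The generating function. -/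
noncomputable def Y (R : Finset (Finset α)) (A : Finset α) : ℝ :=
  ∑ X ∈ hit R A, (13 / 50 : ℝ) ^ X.card

theorem L_mono {k : ℕ} : ∀ {F G : Set (Finset α)}, F ⊆ G → L k F → L k G := by
  induction k with
  | zero =>
    intro F G h hF
    obtain ⟨D, hD, D', hD', hne⟩ := hF
    exact ⟨D, h hD, D', h hD', hne⟩
  | succ k ih =>
    intro F G h hF S
    rcases hF S with h1 | h1
    · exact Or.inl (ih (fun D hD => ⟨h hD.1, hD.2⟩) h1)
    · exact Or.inr (ih (fun D hD => ⟨h hD.1, hD.2⟩) h1)

theorem L_empty {k : ℕ} : ¬ L k (∅ : Set (Finset α)) := by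
  induction k with
  | zero =>
    rintro ⟨D, hD, -⟩
    exact hD
  | succ k ih =>
    intro h
    rcases h ∅ with h1 | h1
    · exact ih (L_mono (fun D hD => hD.1) h1)
    · exact ih (L_mono (fun D hD => hD.1) h1)

theorem L_succ_le {k : ℕ} : ∀ {F : Set (Finset α)}, L (k + 1) F → L k F := by
  intro F h
  rcases h ∅ with h1 | h1
  · exfalso
    refine L_empty (L_mono (fun D hD => ?_) h1)
    have := hD.2
    rw [Finset.empty_inter] at this
    exact absurd this Finset.not_nonempty_empty
  · exact L_mono (fun D hD => hD.1) h1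

/-- `L` is invariant under permutations of the items. -/
theorem L_perm (σ : Equiv.Perm α) {k : ℕ} : ∀ {F : Set (Finset α)},
    L k F → L k {D | D.map σ.toEmbedding ∈ F} := by
  induction k with
  | zero =>
    intro F h
    obtain ⟨D, hD, D', hD', hne⟩ := h
    have key : ∀ E : Finset α, (E.map σ.symm.toEmbedding).map σ.toEmbedding = E := by
      intro E
      ext x
      simp
    refine ⟨D.map σ.symm.toEmbedding, ?_, D'.map σ.symm.toEmbedding, ?_, ?_⟩
    · show (D.map σ.symm.toEmbedding).map σ.toEmbedding ∈ F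
      rw [key]; exact hD
    · show (D'.map σ.symm.toEmbedding).map σ.toEmbedding ∈ F
      rw [key]; exact hD'
    · intro h
      exact hne (Finset.map_injective _ h)
  | succ k ih =>
    intro F h S
    have key : ∀ D : Finset α, ((S.map σ.toEmbedding) ∩ (D.map σ.toEmbedding)).Nonempty ↔
        (S ∩ D).Nonempty := by
      intro D
      rw [← Finset.map_inter, Finset.map_nonempty]
    rcases h (S.map σ.toEmbedding) with h1 | h1
    · left
      refine L_mono (fun D hD => ?_) (ih h1)
      exact ⟨hD.1, (key D).1 hD.2⟩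
    · right
      refine L_mono (fun D hD => ?_) (ih h1)
      exact ⟨hD.1, fun h2 => hD.2 ((key D).2 h2)⟩

theorem U1 (k : ℕ) : ∀ (B W : Finset α), Disjoint B W → k + 2 ≤ W.card →
    L k {D | ∃ y ∈ W, D = B ∪ W.erase y} := by
  induction k with
  | zero =>
    intro B W hBW hW
    obtain ⟨y, hy, y', hy', hne⟩ := Finset.one_lt_card.1 (show 1 < W.card by omega)
    refine ⟨B ∪ W.erase y, ⟨y, hy, rfl⟩, B ∪ W.erase y', ⟨y', hy', rfl⟩, ?_⟩
    intro h
    have h1 : y' ∈ B ∪ W.erase y := by
      rw [Finset.mem_union, Finset.mem_erase]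
      exact Or.inr ⟨hne.symm, hy'⟩
    rw [h, Finset.mem_union, Finset.mem_erase] at h1
    rcases h1 with h1 | h1
    · exact (Finset.disjoint_left.1 hBW) h1 hy'
    · exact h1.1 rfl
  | succ k ih =>
    intro B W hBW hW S
    have hIH := ih B W hBW (by omega)
    by_cases hSB : (S ∩ B).Nonempty
    · left
      refine L_mono (fun D hD => ⟨hD, ?_⟩) hIH
      obtain ⟨x, hx⟩ := hSB
      rw [Finset.mem_inter] at hx
      obtain ⟨y, hy, rfl⟩ := hD
      exact ⟨x, Finset.mem_inter.2 ⟨hx.1, Finset.mem_union_left _ hx.2⟩⟩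
    · rw [Finset.not_nonempty_iff_eq_empty] at hSB
      have hSB' : ∀ x, x ∈ S → x ∈ B → False := fun x h1 h2 => by
        have : x ∈ S ∩ B := Finset.mem_inter.2 ⟨h1, h2⟩
        rw [hSB] at this
        exact absurd this (Finset.notMem_empty _)
      rcases Nat.lt_trichotomy (S ∩ W).card 1 with hc | hc | hc
      · right
        have h0 : S ∩ W = ∅ := Finset.card_eq_zero.1 (by omega)
        refine L_mono (fun D hD => ⟨hD, ?_⟩) hIH
        obtain ⟨y, hy, rfl⟩ := hD
        rintro ⟨x, hx⟩
        rw [Finset.mem_inter, Finset.mem_union] at hx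
        rcases hx.2 with h | h
        · exact hSB' x hx.1 h
        · have : x ∈ S ∩ W := Finset.mem_inter.2 ⟨hx.1, Finset.mem_of_mem_erase h⟩
          rw [h0] at this
          exact absurd this (Finset.notMem_empty _)
      · left
        obtain ⟨v, hv⟩ := Finset.card_eq_one.1 hc
        have hv' : v ∈ S ∩ W := by rw [hv]; exact Finset.mem_singleton_self v
        rw [Finset.mem_inter] at hv'
        have h2 := ih (insert v B) (W.erase v) (by
          rw [Finset.disjoint_left]
          intro x hx hx'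
          rw [Finset.mem_insert] at hx
          rw [Finset.mem_erase] at hx'
          rcases hx with h | h
          · exact hx'.1 h
          · exact (Finset.disjoint_left.1 hBW) h hx'.2) (by
          rw [Finset.card_erase_of_mem hv'.2]; omega)
        refine L_mono (fun D hD => ?_) h2
        obtain ⟨y, hy, rfl⟩ := hD
        rw [Finset.mem_erase] at hy
        refine ⟨⟨y, hy.2, ?_⟩, ⟨v, ?_⟩⟩
        · ext x
          simp only [Finset.mem_union, Finset.mem_insert, Finset.mem_erase]
          constructor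
          · rintro ((h | h) | h)
            · exact Or.inr ⟨fun h' => hy.1 (h'.symm.trans h), h ▸ hv'.2⟩
            · exact Or.inl h
            · exact Or.inr ⟨h.1, h.2.2⟩
          · rintro (h | h)
            · exact Or.inl (Or.inr h)
            · by_cases hxv : x = v
              · exact Or.inl (Or.inl hxv)
              · exact Or.inr ⟨h.1, hxv, h.2⟩
        · rw [Finset.mem_inter, Finset.mem_union, Finset.mem_insert]
          exact ⟨hv'.1, Or.inl (Or.inl rfl)⟩
      · left
        refine L_mono (fun D hD => ⟨hD, ?_⟩) hIH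
        obtain ⟨y, hy, rfl⟩ := hD
        obtain ⟨x, hx, hxy⟩ := Finset.exists_mem_ne hc y
        rw [Finset.mem_inter] at hx
        refine ⟨x, ?_⟩
        rw [Finset.mem_inter, Finset.mem_union, Finset.mem_erase]
        exact ⟨hx.1, Or.inr ⟨hxy, hx.2⟩⟩

theorem U2 (k : ℕ) : ∀ (B W : Finset α) (Γ : Finset (Finset α)), Disjoint B W →
    k + 2 ≤ W.card → Γ.card + k + 5 ≤ 2 * W.card →
    L k {D | ∃ P ⊆ W, P.card = 2 ∧ P ∉ Γ ∧ D = B ∪ (W \ P)} := by
  induction k with
  | zero =>
    intro B W Γ hBW hW hΓ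
    have hcard : 1 < ((W.powersetCard 2) \ Γ).card := by
      have h1 := Finset.le_card_sdiff Γ (W.powersetCard 2)
      rw [Finset.card_powersetCard] at h1
      have h2 : W.card.choose 2 = W.card * (W.card - 1) / 2 := Nat.choose_two_right _
      have h3 : Γ.card + 2 ≤ W.card.choose 2 := by
        rw [h2, Nat.le_div_iff_mul_le (by norm_num)]
        obtain ⟨w, hw⟩ : ∃ w, W.card = w + 3 := ⟨W.card - 3, by omega⟩
        rw [hw] at hΓ ⊢
        have h4 : (Γ.card + 2) * 2 ≤ (2 * (w + 3) - 5 + 2) * 2 := by omega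
        refine h4.trans ?_
        have h5 : 2 * (w + 3) - 5 + 2 = 2 * w + 3 := by omega
        have h6 : w + 3 - 1 = w + 2 := by omega
        rw [h5, h6]
        nlinarith
      omega
    obtain ⟨P, hP, P', hP', hne⟩ := Finset.one_lt_card.1 hcard
    rw [Finset.mem_sdiff, Finset.mem_powersetCard] at hP hP'
    refine ⟨B ∪ (W \ P), ⟨P, hP.1.1, hP.1.2, hP.2, rfl⟩, B ∪ (W \ P'),
      ⟨P', hP'.1.1, hP'.1.2, hP'.2, rfl⟩, ?_⟩
    intro h
    apply hne
    have key : ∀ Q : Finset α, Q ⊆ W → W \ (B ∪ (W \ Q)) = Q := by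
      intro Q hQ
      ext x
      simp only [Finset.mem_sdiff, Finset.mem_union, not_or, not_and, not_not]
      constructor
      · rintro ⟨h1, h2, h3⟩
        exact h3 h1
      · intro h1
        exact ⟨hQ h1, fun h2 => (Finset.disjoint_left.1 hBW) h2 (hQ h1), fun _ => h1⟩
    rw [← key P hP.1.1, h, key P' hP'.1.1]
  | succ k ih =>
    intro B W Γ hBW hW hΓ S
    have hIH := ih B W Γ hBW (by omega) (by omega)
    by_cases hSB : (S ∩ B).Nonempty
    · left
      refine L_mono (fun D hD => ⟨hD, ?_⟩) hIH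
      obtain ⟨x, hx⟩ := hSB
      rw [Finset.mem_inter] at hx
      obtain ⟨P, -, -, -, rfl⟩ := hD
      exact ⟨x, Finset.mem_inter.2 ⟨hx.1, Finset.mem_union_left _ hx.2⟩⟩
    · rw [Finset.not_nonempty_iff_eq_empty] at hSB
      have hSB' : ∀ x, x ∈ S → x ∈ B → False := fun x h1 h2 => by
        have : x ∈ S ∩ B := Finset.mem_inter.2 ⟨h1, h2⟩
        rw [hSB] at this
        exact absurd this (Finset.notMem_empty _)
      obtain hc | hc | hc | hc : (S ∩ W).card = 0 ∨ (S ∩ W).card = 1 ∨ (S ∩ W).card = 2 ∨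
        3 ≤ (S ∩ W).card := by omega
      · right
        have h0 : S ∩ W = ∅ := Finset.card_eq_zero.1 hc
        refine L_mono (fun D hD => ⟨hD, ?_⟩) hIH
        obtain ⟨P, -, -, -, rfl⟩ := hD
        rintro ⟨x, hx⟩
        rw [Finset.mem_inter, Finset.mem_union, Finset.mem_sdiff] at hx
        rcases hx.2 with h | h
        · exact hSB' x hx.1 h
        · have : x ∈ S ∩ W := Finset.mem_inter.2 ⟨hx.1, h.1⟩
          rw [h0] at this
          exact absurd this (Finset.notMem_empty _)
      · obtain ⟨v, hv⟩ := Finset.card_eq_one.1 hc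
        have hv' : v ∈ S ∩ W := by rw [hv]; exact Finset.mem_singleton_self v
        rw [Finset.mem_inter] at hv'
        have hSW : ∀ x, x ∈ S → x ∈ W → x = v := fun x h1 h2 => by
          have : x ∈ S ∩ W := Finset.mem_inter.2 ⟨h1, h2⟩
          rw [hv] at this
          exact Finset.mem_singleton.1 this
        have hWv : (W.erase v).card = W.card - 1 := Finset.card_erase_of_mem hv'.2
        by_cases hG : ∃ g ∈ Γ, v ∈ g
        · left
          obtain ⟨g, hg, hvg⟩ := hG
          have hlt : (Γ.filter (fun g => v ∉ g)).card < Γ.card := by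
            apply Finset.card_lt_card
            rw [Finset.filter_ssubset]
            exact ⟨g, hg, fun h => h hvg⟩
          have h2 := ih (insert v B) (W.erase v) (Γ.filter (fun g => v ∉ g)) (by
            rw [Finset.disjoint_left]
            intro x hx hx'
            rw [Finset.mem_insert] at hx
            rw [Finset.mem_erase] at hx'
            rcases hx with h | h
            · exact hx'.1 h
            · exact (Finset.disjoint_left.1 hBW) h hx'.2) (by omega) (by omega)
          refine L_mono (fun D hD => ?_) h2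
          obtain ⟨P, hPW, hPc, hPΓ, rfl⟩ := hD
          have hvP : v ∉ P := fun h => (Finset.mem_erase.1 (hPW h)).1 rfl
          refine ⟨⟨P, fun x hx => Finset.mem_of_mem_erase (hPW hx), hPc, ?_, ?_⟩, ⟨v, ?_⟩⟩
          · intro h
            exact hPΓ (Finset.mem_filter.2 ⟨h, hvP⟩)
          · ext x
            simp only [Finset.mem_union, Finset.mem_insert, Finset.mem_sdiff, Finset.mem_erase]
            constructor
            · rintro ((h | h) | h)
              · rw [h]; exact Or.inr ⟨hv'.2, hvP⟩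
              · exact Or.inl h
              · exact Or.inr ⟨h.1.2, h.2⟩
            · rintro (h | h)
              · exact Or.inl (Or.inr h)
              · by_cases hxv : x = v
                · exact Or.inl (Or.inl hxv)
                · exact Or.inr ⟨⟨hxv, h.1⟩, h.2⟩
          · rw [Finset.mem_inter, Finset.mem_union, Finset.mem_insert]
            exact ⟨hv'.1, Or.inl (Or.inl rfl)⟩
        · right
          push Not at hG
          have h2 := U1 k B (W.erase v) (by
            rw [Finset.disjoint_left]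
            intro x hx hx'
            exact (Finset.disjoint_left.1 hBW) hx (Finset.mem_of_mem_erase hx')) (by omega)
          refine L_mono (fun D hD => ?_) h2
          obtain ⟨y, hy, rfl⟩ := hD
          rw [Finset.mem_erase] at hy
          refine ⟨⟨{v, y}, ?_, ?_, ?_, ?_⟩, ?_⟩
          · intro x hx
            rw [Finset.mem_insert, Finset.mem_singleton] at hx
            rcases hx with rfl | rfl
            · exact hv'.2
            · exact hy.2
          · exact Finset.card_pair hy.1.symm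
          · intro h
            exact hG _ h (Finset.mem_insert_self _ _)
          · ext x
            simp only [Finset.mem_union, Finset.mem_erase, Finset.mem_sdiff, Finset.mem_insert,
              Finset.mem_singleton, not_or]
            tauto
          · rintro ⟨x, hx⟩
            rw [Finset.mem_inter, Finset.mem_union, Finset.mem_erase, Finset.mem_erase] at hx
            rcases hx.2 with h | h
            · exact hSB' x hx.1 h
            · exact h.2.1 (hSW x hx.1 h.2.2)
      · left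
        have h2 := ih B W (insert (S ∩ W) Γ) hBW (by omega) (by
          have := Finset.card_insert_le (S ∩ W) Γ
          omega)
        refine L_mono (fun D hD => ?_) h2
        obtain ⟨P, hPW, hPc, hPΓ, rfl⟩ := hD
        rw [Finset.mem_insert, not_or] at hPΓ
        refine ⟨⟨P, hPW, hPc, hPΓ.2, rfl⟩, ?_⟩
        by_contra hcon
        apply hPΓ.1
        symm
        apply Finset.eq_of_subset_of_card_le
        · intro x hx
          by_contra hxP
          rw [Finset.mem_inter] at hx
          apply hcon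
          refine ⟨x, ?_⟩
          rw [Finset.mem_inter, Finset.mem_union, Finset.mem_sdiff]
          exact ⟨hx.1, Or.inr ⟨hx.2, hxP⟩⟩
        · omega
      · left
        refine L_mono (fun D hD => ⟨hD, ?_⟩) hIH
        obtain ⟨P, -, hPc, -, rfl⟩ := hD
        have h3 : ((S ∩ W) \ P).Nonempty := by
          rw [← Finset.card_pos]
          have := Finset.le_card_sdiff P (S ∩ W)
          omega
        obtain ⟨x, hx⟩ := h3
        rw [Finset.mem_sdiff, Finset.mem_inter] at hx
        refine ⟨x, ?_⟩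
        rw [Finset.mem_inter, Finset.mem_union, Finset.mem_sdiff]
        exact ⟨hx.1.1, Or.inr ⟨hx.1.2, hx.2⟩⟩

theorem disj_BW {B A C : Finset α} {π : α → α} {R : Finset (Finset α)}
    (h : St B A C π R) : Disjoint B (A ∪ C) := by
  rw [Finset.disjoint_union_right]
  exact ⟨h.hBA, h.hBC⟩

theorem g1 {B A C : Finset α} {π : α → α} {R : Finset (Finset α)} {t k : ℕ}
    (h : St B A C π R) (hg : A.card = t + 1) (hk : k + 2 ≤ A.card + C.card) :
    L k (Fam B A C π R t) := by
  have hW : (A ∪ C).card = A.card + C.card := Finset.card_union_of_disjoint h.hAC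
  have hdis := disj_BW h
  refine L_mono ?_ (U1 k B (A ∪ C) hdis (by omega))
  rintro D ⟨y, hy, rfl⟩
  refine ⟨Finset.subset_union_left, ?_, ?_, ?_, ?_⟩
  · intro x hx
    rw [Finset.mem_union, Finset.mem_erase, Finset.mem_union] at hx
    rw [Finset.mem_union, Finset.mem_union]
    tauto
  · rw [Finset.card_union_of_disjoint (hdis.mono_right (Finset.erase_subset _ _)),
      Finset.card_erase_of_mem hy, hW]
    omega
  · intro e he
    have h1 : 1 < e.card := by rcases h.hcard e he with h2 | h2 <;> omega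
    obtain ⟨x, hx, hxy⟩ := Finset.exists_mem_ne h1 y
    refine ⟨x, ?_⟩
    rw [Finset.mem_inter, Finset.mem_union, Finset.mem_erase, Finset.mem_union]
    exact ⟨hx, Or.inr ⟨hxy, Or.inl (h.hR e he hx)⟩⟩
  · intro c hc
    have hne : c ≠ π c := fun h2 => (Finset.disjoint_left.1 h.hAC) (h2 ▸ h.hπ c hc) hc
    by_cases hcy : c = y
    · right
      rw [Finset.mem_union, Finset.mem_erase, Finset.mem_union]
      exact Or.inr ⟨fun h2 => hne (hcy.trans h2.symm), Or.inl (h.hπ c hc)⟩
    · left
      rw [Finset.mem_union, Finset.mem_erase, Finset.mem_union]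
      exact Or.inr ⟨hcy, Or.inr hc⟩

theorem g2 {B A C : Finset α} {π : α → α} {R : Finset (Finset α)} {t k : ℕ}
    (h : St B A C π R) (hg : A.card = t + 2) (hk : k + 2 ≤ A.card + C.card)
    (hk2 : R.card + k + 5 ≤ 2 * A.card + C.card) :
    L k (Fam B A C π R t) := by
  have hW : (A ∪ C).card = A.card + C.card := Finset.card_union_of_disjoint h.hAC
  have hdis := disj_BW h
  have hΓ : ((R.filter (fun e => e.card = 2)) ∪ C.image (fun c => ({c, π c} : Finset α))).card ≤
      R.card + C.card := by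
    refine (Finset.card_union_le _ _).trans ?_
    exact add_le_add (Finset.card_filter_le _ _) Finset.card_image_le
  refine L_mono ?_ (U2 k B (A ∪ C)
    ((R.filter (fun e => e.card = 2)) ∪ C.image (fun c => ({c, π c} : Finset α))) hdis (by omega)
    (by omega))
  rintro D ⟨P, hPW, hPc, hPΓ, rfl⟩
  rw [Finset.mem_union, not_or, Finset.mem_filter, Finset.mem_image] at hPΓ
  refine ⟨Finset.subset_union_left, ?_, ?_, ?_, ?_⟩
  · intro x hx
    rw [Finset.mem_union, Finset.mem_sdiff, Finset.mem_union] at hx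
    rw [Finset.mem_union, Finset.mem_union]
    tauto
  · rw [Finset.card_union_of_disjoint (hdis.mono_right Finset.sdiff_subset),
      Finset.card_sdiff_of_subset hPW, hW, hPc]
    omega
  · intro e he
    by_contra hcon
    have hsub : e ⊆ P := by
      intro x hx
      by_contra hxP
      apply hcon
      refine ⟨x, ?_⟩
      rw [Finset.mem_inter, Finset.mem_union, Finset.mem_sdiff, Finset.mem_union]
      exact ⟨hx, Or.inr ⟨Or.inl (h.hR e he hx), hxP⟩⟩
    have hle := Finset.card_le_card hsub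
    rcases h.hcard e he with h2 | h2
    · have : e = P := Finset.eq_of_subset_of_card_le hsub (by omega)
      exact hPΓ.1 ⟨this ▸ he, hPc⟩
    · omega
  · intro c hc
    have hne : c ≠ π c := fun h2 => (Finset.disjoint_left.1 h.hAC) (h2 ▸ h.hπ c hc) hc
    by_contra hcon
    rw [not_or] at hcon
    have h1 : c ∈ P := by
      by_contra hcP
      apply hcon.1
      rw [Finset.mem_union, Finset.mem_sdiff, Finset.mem_union]
      exact Or.inr ⟨Or.inr hc, hcP⟩
    have h2 : π c ∈ P := by
      by_contra hcP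
      apply hcon.2
      rw [Finset.mem_union, Finset.mem_sdiff, Finset.mem_union]
      exact Or.inr ⟨Or.inl (h.hπ c hc), hcP⟩
    apply hPΓ.2
    refine ⟨c, hc, ?_⟩
    apply Finset.eq_of_subset_of_card_le
    · intro x hx
      rw [Finset.mem_insert, Finset.mem_singleton] at hx
      rcases hx with rfl | rfl
      · exact h1
      · exact h2
    · rw [hPc, Finset.card_pair hne]

/-- If a test touches the pair `{c, π c}` then the subfamily of the positive answer survives. -/
theorem touch {B A C : Finset α} {π : α → α} {R : Finset (Finset α)} {t k : ℕ}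
    (hBA : Disjoint B A) (hBC : Disjoint B C) (hAC : Disjoint A C)
    (hπ : ∀ c ∈ C, π c ∈ A) (hinj : Set.InjOn π (C : Set α))
    (hRC : ∀ e ∈ R, ∀ c ∈ C, c ∉ e ∧ π c ∉ e)
    {c : α} (hc : c ∈ C) {S : Finset α} (hS : c ∈ S ∨ π c ∈ S)
    (h : L k (Fam (insert c B) A (C.erase c) π R t)) :
    L k {D | D ∈ Fam B A C π R t ∧ (S ∩ D).Nonempty} := by
  have hcB : c ∉ B := fun h' => Finset.disjoint_left.mp hBC h' hc
  have hcard : (insert c B).card + (C.erase c).card + t = B.card + C.card + t := by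
    rw [Finset.card_insert_of_notMem hcB, Finset.card_erase_of_mem hc]
    have : 0 < C.card := Finset.card_pos.mpr ⟨c, hc⟩
    omega
  rcases hS with hS | hS
  · refine L_mono ?_ h
    rintro D ⟨h1, h2, h3, h4, h5⟩
    refine ⟨⟨?_, ?_, ?_, h4, ?_⟩, ?_⟩
    · exact (Finset.subset_insert c B).trans h1
    · intro x hx
      have := h2 hx
      simp only [Finset.mem_union, Finset.mem_insert, Finset.mem_erase] at this ⊢
      rcases this with ((rfl | hh) | hh) | hh
      · exact Or.inr hc
      · exact Or.inl (Or.inl hh)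
      · exact Or.inl (Or.inr hh)
      · exact Or.inr hh.2
    · rw [h3, hcard]
    · intro c' hc'
      by_cases hcc : c' = c
      · rw [hcc]
        exact Or.inl (h1 (Finset.mem_insert_self c B))
      · exact h5 c' (Finset.mem_erase.mpr ⟨hcc, hc'⟩)
    · exact ⟨c, Finset.mem_inter.mpr ⟨hS, h1 (Finset.mem_insert_self c B)⟩⟩
  · refine L_mono ?_ (L_perm (Equiv.swap c (π c)) h)
    intro D hD
    obtain ⟨h1, h2, h3, h4, h5⟩ := hD
    have hmem : ∀ x, x ∈ D ↔ Equiv.swap c (π c) x ∈
        D.map (Equiv.swap c (π c)).toEmbedding := by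
      intro x
      constructor
      · intro hx
        exact Finset.mem_map.mpr ⟨x, hx, rfl⟩
      · intro hx
        obtain ⟨y, hy, hyx⟩ := Finset.mem_map.mp hx
        have : y = x := (Equiv.swap c (π c)).injective hyx
        rwa [this] at hy
    have hfix : ∀ x, x ≠ c → x ≠ π c →
        (x ∈ D ↔ x ∈ D.map (Equiv.swap c (π c)).toEmbedding) := by
      intro x hx1 hx2
      rw [hmem x, Equiv.swap_apply_of_ne_of_ne hx1 hx2]
    have hπD : π c ∈ D := by
      rw [hmem, Equiv.swap_apply_right]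
      exact h1 (Finset.mem_insert_self c B)
    have hπA : π c ∈ A := hπ c hc
    refine ⟨⟨?_, ?_, ?_, ?_, ?_⟩, ⟨π c, Finset.mem_inter.mpr ⟨hS, hπD⟩⟩⟩
    · intro x hx
      have hx1 : x ≠ c := fun h' => hcB (h' ▸ hx)
      have hx2 : x ≠ π c := fun h' => Finset.disjoint_left.mp hBA hx (h' ▸ hπA)
      rw [hfix x hx1 hx2]
      exact h1 (Finset.mem_insert_of_mem hx)
    · intro x hx
      simp only [Finset.mem_union]
      by_cases hx1 : x = c
      · rw [hx1]; exact Or.inr hc
      by_cases hx2 : x = π c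
      · rw [hx2]; exact Or.inl (Or.inr hπA)
      have := h2 ((hfix x hx1 hx2).mp hx)
      simp only [Finset.mem_union, Finset.mem_insert, Finset.mem_erase] at this
      rcases this with ((hh | hh) | hh) | hh
      · exact absurd hh hx1
      · exact Or.inl (Or.inl hh)
      · exact Or.inl (Or.inr hh)
      · exact Or.inr hh.2
    · rw [Finset.card_map] at h3
      rw [h3, hcard]
    · intro e he
      obtain ⟨y, hy⟩ := h4 e he
      rw [Finset.mem_inter] at hy
      have hy1 : y ≠ c := fun h' => (hRC e he c hc).1 (h' ▸ hy.1)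
      have hy2 : y ≠ π c := fun h' => (hRC e he c hc).2 (h' ▸ hy.1)
      exact ⟨y, Finset.mem_inter.mpr ⟨hy.1, (hfix y hy1 hy2).mpr hy.2⟩⟩
    · intro c' hc'
      by_cases hcc : c' = c
      · rw [hcc]; exact Or.inr hπD
      · have h6 := h5 c' (Finset.mem_erase.mpr ⟨hcc, hc'⟩)
        rcases h6 with h6 | h6
        · left
          have hne : c' ≠ π c := fun h' => Finset.disjoint_left.mp hAC hπA (h' ▸ hc')
          exact (hfix c' hcc hne).mpr h6
        · right
          have hne1 : π c' ≠ c := fun h' => Finset.disjoint_left.mp hAC (hπ c' hc') (h'.symm ▸ hc)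
          have hne2 : π c' ≠ π c := fun h' => hcc (hinj hc' hc h')
          exact (hfix (π c') hne1 hne2).mpr h6

theorem lemmaQ_memNN {R : Finset (Finset α)} {A X : Finset α} {t : ℕ} :
    X ∈ (hit R A).filter (fun X => X.card = t) ↔
      X ⊆ A ∧ (∀ e ∈ R, (e ∩ X).Nonempty) ∧ X.card = t := by
  unfold hit
  rw [Finset.mem_filter, Finset.mem_filter, Finset.mem_powerset]
  tauto

theorem lemmaQ_memFam {B A C X : Finset α} {π : α → α} {R : Finset (Finset α)} {t : ℕ}
    (hBA : Disjoint B A) (hBC : Disjoint B C) (hAC : Disjoint A C)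
    (hX : X ⊆ A) (hXR : ∀ e ∈ R, (e ∩ X).Nonempty) (hXc : X.card = t) :
    B ∪ C ∪ X ∈ Fam B A C π R t := by
  refine ⟨?_, ?_, ?_, ?_, ?_⟩
  · exact Finset.subset_union_left.trans Finset.subset_union_left
  · intro x hx
    simp only [Finset.mem_union] at hx ⊢
    rcases hx with (hx | hx) | hx
    · exact Or.inl (Or.inl hx)
    · exact Or.inr hx
    · exact Or.inl (Or.inr (hX hx))
  · rw [Finset.card_union_of_disjoint, Finset.card_union_of_disjoint hBC, hXc]
    rw [Finset.disjoint_union_left]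
    exact ⟨Finset.disjoint_of_subset_right hX hBA,
      (Finset.disjoint_of_subset_left hX hAC).symm⟩
  · intro e he
    obtain ⟨y, hy⟩ := hXR e he
    rw [Finset.mem_inter] at hy
    exact ⟨y, Finset.mem_inter.mpr ⟨hy.1, Finset.mem_union_right _ hy.2⟩⟩
  · intro c hc
    exact Or.inl (Finset.mem_union_left _ (Finset.mem_union_right _ hc))

theorem lemmaQ_ne {B A C X X' : Finset α} (hBA : Disjoint B A) (hAC : Disjoint A C)
    (hX : X ⊆ A) {y : α} (hy : y ∈ X) (hy' : y ∉ X') : B ∪ C ∪ X ≠ B ∪ C ∪ X' := by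
  intro h
  have h1 : y ∈ B ∪ C ∪ X := Finset.mem_union_right _ hy
  rw [h] at h1
  simp only [Finset.mem_union] at h1
  rcases h1 with (h1 | h1) | h1
  · exact Finset.disjoint_left.mp hBA h1 (hX hy)
  · exact Finset.disjoint_left.mp hAC (hX hy) h1
  · exact hy' h1

/-- exchanging a token for another element -/
theorem lemmaQ_exch {A X : Finset α} {R : Finset (Finset α)} {t : ℕ} {b y : α}
    (hX : X ⊆ A) (hXR : ∀ e ∈ R, (e ∩ X).Nonempty) (hXc : X.card = t) (hb : b ∈ X)
    (hbR : ∀ e ∈ R, b ∉ e) (hyA : y ∈ A) (hyX : y ∉ X) :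
    insert y (X.erase b) ⊆ A ∧ (∀ e ∈ R, (e ∩ insert y (X.erase b)).Nonempty) ∧
      (insert y (X.erase b)).card = t := by
  refine ⟨?_, ?_, ?_⟩
  · intro x hx
    rw [Finset.mem_insert, Finset.mem_erase] at hx
    rcases hx with rfl | hx
    · exact hyA
    · exact hX hx.2
  · intro e he
    obtain ⟨z, hz⟩ := hXR e he
    rw [Finset.mem_inter] at hz
    have hzb : z ≠ b := fun h' => hbR e he (h' ▸ hz.1)
    exact ⟨z, Finset.mem_inter.mpr ⟨hz.1, Finset.mem_insert_of_mem
      (Finset.mem_erase.mpr ⟨hzb, hz.2⟩)⟩⟩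
  · rw [Finset.card_insert_of_notMem (fun h' => hyX (Finset.mem_of_mem_erase h')),
      Finset.card_erase_of_mem hb, hXc]
    have : 0 < X.card := Finset.card_pos.mpr ⟨b, hb⟩
    omega

theorem lemmaQ_split (R : Finset (Finset α)) (A S : Finset α) (t : ℕ) :
    NN R A t = NN (insert (S ∩ A) R) A t + NN R (A \ S) t := by
  unfold NN
  rw [← Finset.card_union_of_disjoint]
  · congr 1
    ext X
    rw [Finset.mem_union, lemmaQ_memNN, lemmaQ_memNN, lemmaQ_memNN]
    constructor
    · rintro ⟨h1, h2, h3⟩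
      by_cases h : ((S ∩ A) ∩ X).Nonempty
      · left
        refine ⟨h1, ?_, h3⟩
        intro e he
        rw [Finset.mem_insert] at he
        rcases he with rfl | he
        · exact h
        · exact h2 e he
      · right
        refine ⟨?_, h2, h3⟩
        intro x hx
        rw [Finset.mem_sdiff]
        refine ⟨h1 hx, fun hxS => h ⟨x, ?_⟩⟩
        simp only [Finset.mem_inter]
        exact ⟨⟨hxS, h1 hx⟩, hx⟩
    · rintro (⟨h1, h2, h3⟩ | ⟨h1, h2, h3⟩)
      · exact ⟨h1, fun e he => h2 e (Finset.mem_insert_of_mem he), h3⟩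
      · exact ⟨h1.trans Finset.sdiff_subset, h2, h3⟩
  · rw [Finset.disjoint_left]
    intro X hX hX'
    rw [lemmaQ_memNN] at hX hX'
    obtain ⟨y, hy⟩ := hX.2.1 (S ∩ A) (Finset.mem_insert_self _ _)
    simp only [Finset.mem_inter] at hy
    have := hX'.1 hy.2
    rw [Finset.mem_sdiff] at this
    exact this.2 hy.1.1

/-- Information-theoretic end phase. -/
theorem lemmaQ (k : ℕ) : ∀ (B A C : Finset α) (π : α → α) (R : Finset (Finset α)) (t : ℕ),
    Disjoint B A → Disjoint B C → Disjoint A C → (∀ c ∈ C, π c ∈ A) →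
    Set.InjOn π (C : Set α) → (∀ e ∈ R, ∀ c ∈ C, c ∉ e ∧ π c ∉ e) → t + 1 ≤ A.card →
    2 ^ k < 2 ^ C.card * NN R A t → L k (Fam B A C π R t) := by
  induction k with
  | zero =>
    intro B A C π R t hBA hBC hAC hπ hinj hRC hA hN
    rcases Finset.eq_empty_or_nonempty C with hC | ⟨c, hc⟩
    · subst hC
      have hN' : 1 < NN R A t := by simpa using hN
      unfold NN at hN'
      obtain ⟨X, hX, X', hX', hne⟩ := Finset.one_lt_card.mp hN'
      rw [lemmaQ_memNN] at hX hX'
      refine ⟨B ∪ ∅ ∪ X, lemmaQ_memFam hBA hBC hAC hX.1 hX.2.1 hX.2.2,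
        B ∪ ∅ ∪ X', lemmaQ_memFam hBA hBC hAC hX'.1 hX'.2.1 hX'.2.2, ?_⟩
      have hex : ∃ y ∈ X, y ∉ X' := by
        by_contra hcon
        push Not at hcon
        exact hne (Finset.eq_of_subset_of_card_le hcon (by rw [hX.2.2, hX'.2.2]))
      obtain ⟨y, hy, hy'⟩ := hex
      exact lemmaQ_ne hBA hAC hX.1 hy hy'
    · have hN1 : 0 < NN R A t := by
        rcases Nat.eq_zero_or_pos (NN R A t) with h | h
        · rw [h] at hN; simp at hN
        · exact h
      unfold NN at hN1
      obtain ⟨X, hX⟩ := Finset.card_pos.mp hN1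
      rw [lemmaQ_memNN] at hX
      obtain ⟨hX1, hX2, hX3⟩ := hX
      by_cases hb : π c ∈ X
      · -- exchange the token
        have hyex : ∃ y ∈ A, y ∉ X := by
          by_contra hcon
          push Not at hcon
          have := Finset.card_le_card (show A ⊆ X from hcon)
          omega
        obtain ⟨y, hyA, hyX⟩ := hyex
        obtain ⟨g1, g2, g3⟩ := lemmaQ_exch hX1 hX2 hX3 hb
          (fun e he => (hRC e he c hc).2) hyA hyX
        refine ⟨_, lemmaQ_memFam hBA hBC hAC hX1 hX2 hX3, _,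
          lemmaQ_memFam hBA hBC hAC g1 g2 g3, ?_⟩
        apply lemmaQ_ne hBA hAC hX1 hb
        intro h'
        rw [Finset.mem_insert, Finset.mem_erase] at h'
        rcases h' with h' | h'
        · exact hyX (h' ▸ hb)
        · exact h'.1 rfl
      · have hD := lemmaQ_memFam (π := π) hBA hBC hAC hX1 hX2 hX3
        have hcB : c ∉ B := fun h' => Finset.disjoint_left.mp hBC h' hc
        have hbB : π c ∉ B := fun h' => Finset.disjoint_left.mp hBA h' (hπ c hc)
        have hbC : π c ∉ C := fun h' => Finset.disjoint_left.mp hAC (hπ c hc) h'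
        have hcb : c ≠ π c := fun h' => hbC (h' ▸ hc)
        have hcX : c ∉ X := fun h' => Finset.disjoint_left.mp hAC (hX1 h') hc
        refine ⟨B ∪ C ∪ X, hD, insert (π c) ((B ∪ C ∪ X).erase c), ?_, ?_⟩
        · obtain ⟨d1, d2, d3, d4, d5⟩ := hD
          refine ⟨?_, ?_, ?_, ?_, ?_⟩
          · intro x hx
            have : x ≠ c := fun h' => hcB (h' ▸ hx)
            exact Finset.mem_insert_of_mem (Finset.mem_erase.mpr ⟨this, d1 hx⟩)
          · intro x hx
            rw [Finset.mem_insert, Finset.mem_erase] at hx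
            rcases hx with rfl | hx
            · exact Finset.mem_union_left _ (Finset.mem_union_right _ (hπ c hc))
            · exact d2 hx.2
          · rw [Finset.card_insert_of_notMem, Finset.card_erase_of_mem, d3]
            · have : 0 < C.card := Finset.card_pos.mpr ⟨c, hc⟩
              omega
            · exact Finset.mem_union_left _ (Finset.mem_union_right _ hc)
            · intro h'
              rw [Finset.mem_erase] at h'
              have h2 := h'.2
              simp only [Finset.mem_union] at h2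
              rcases h2 with (h2 | h2) | h2
              · exact hbB h2
              · exact hbC h2
              · exact hb h2
          · intro e he
            obtain ⟨y, hy⟩ := hX2 e he
            rw [Finset.mem_inter] at hy
            have hyc : y ≠ c := fun h' => hcX (h' ▸ hy.2)
            exact ⟨y, Finset.mem_inter.mpr ⟨hy.1, Finset.mem_insert_of_mem
              (Finset.mem_erase.mpr ⟨hyc, Finset.mem_union_right _ hy.2⟩)⟩⟩
          · intro c' hc'
            by_cases hcc : c' = c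
            · right
              rw [hcc]
              exact Finset.mem_insert_self _ _
            · left
              exact Finset.mem_insert_of_mem (Finset.mem_erase.mpr
                ⟨hcc, Finset.mem_union_left _ (Finset.mem_union_right _ hc')⟩)
        · intro h'
          have h1 : c ∈ B ∪ C ∪ X := Finset.mem_union_left _ (Finset.mem_union_right _ hc)
          rw [h', Finset.mem_insert, Finset.mem_erase] at h1
          rcases h1 with h1 | h1
          · exact hcb h1
          · exact h1.1 rfl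
  | succ k ih =>
    intro B A C π R t hBA hBC hAC hπ hinj hRC hA hN S
    have hN2 : 2 ^ k < 2 ^ C.card * NN R A t := lt_of_le_of_lt
      (Nat.pow_le_pow_right (by norm_num) (Nat.le_succ k)) hN
    by_cases hSB : (S ∩ B).Nonempty
    · left
      refine L_mono ?_ (ih B A C π R t hBA hBC hAC hπ hinj hRC hA hN2)
      intro D hD
      obtain ⟨y, hy⟩ := hSB
      rw [Finset.mem_inter] at hy
      exact ⟨hD, y, Finset.mem_inter.mpr ⟨hy.1, hD.1 hy.2⟩⟩
    by_cases hSC : ∃ c ∈ C, c ∈ S ∨ π c ∈ S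
    · obtain ⟨c, hc, hcS⟩ := hSC
      left
      have hcA : c ∉ A := fun h' => Finset.disjoint_left.mp hAC h' hc
      apply touch hBA hBC hAC hπ hinj hRC hc hcS
      apply ih
      · rw [Finset.disjoint_insert_left]
        exact ⟨hcA, hBA⟩
      · rw [Finset.disjoint_insert_left]
        exact ⟨Finset.notMem_erase c C, Finset.disjoint_of_subset_right (Finset.erase_subset c C) hBC⟩
      · exact Finset.disjoint_of_subset_right (Finset.erase_subset c C) hAC
      · exact fun c' hc' => hπ c' (Finset.mem_of_mem_erase hc')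
      · intro x hx y hy hxy
        exact hinj (Finset.mem_of_mem_erase hx) (Finset.mem_of_mem_erase hy) hxy
      · exact fun e he c' hc' => hRC e he c' (Finset.mem_of_mem_erase hc')
      · exact hA
      · rw [Finset.card_erase_of_mem hc]
        have hCpos : 0 < C.card := Finset.card_pos.mpr ⟨c, hc⟩
        obtain ⟨m, hm⟩ : ∃ m, C.card = m + 1 := ⟨C.card - 1, by omega⟩
        rw [hm] at hN ⊢
        rw [pow_succ, pow_succ] at hN
        have h3 : 2 ^ k * 2 < (2 ^ m * NN R A t) * 2 := by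
          calc 2 ^ k * 2 < 2 ^ m * 2 * NN R A t := hN
            _ = (2 ^ m * NN R A t) * 2 := by ring
        simpa using Nat.lt_of_mul_lt_mul_right h3
    push Not at hSC
    have hsplit := lemmaQ_split R A S t
    -- positive answer
    have hpos : 2 ^ k < 2 ^ C.card * NN (insert (S ∩ A) R) A t →
        L k {D | D ∈ Fam B A C π R t ∧ (S ∩ D).Nonempty} := by
      intro hh
      refine L_mono ?_ (ih B A C π (insert (S ∩ A) R) t hBA hBC hAC hπ hinj ?_ hA hh)
      · rintro D ⟨h1, h2, h3, h4, h5⟩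
        refine ⟨⟨h1, h2, h3, fun e he => h4 e (Finset.mem_insert_of_mem he), h5⟩, ?_⟩
        obtain ⟨y, hy⟩ := h4 (S ∩ A) (Finset.mem_insert_self _ _)
        simp only [Finset.mem_inter] at hy
        exact ⟨y, Finset.mem_inter.mpr ⟨hy.1.1, hy.2⟩⟩
      · intro e he c hc
        rw [Finset.mem_insert] at he
        rcases he with rfl | he
        · exact ⟨fun h' => (hSC c hc).1 (Finset.mem_inter.mp h').1,
            fun h' => (hSC c hc).2 (Finset.mem_inter.mp h').1⟩
        · exact hRC e he c hc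
    by_cases hneg : 2 ^ k < 2 ^ C.card * NN R (A \ S) t
    · by_cases hAS : t + 1 ≤ (A \ S).card
      · right
        refine L_mono ?_ (ih B (A \ S) C π R t
          (Finset.disjoint_of_subset_right Finset.sdiff_subset hBA) hBC
          (Finset.disjoint_of_subset_left Finset.sdiff_subset hAC)
          (fun c hc => Finset.mem_sdiff.mpr ⟨hπ c hc, (hSC c hc).2⟩) hinj hRC hAS hneg)
        rintro D ⟨h1, h2, h3, h4, h5⟩
        refine ⟨⟨h1, ?_, h3, h4, h5⟩, ?_⟩
        · intro x hx
          have := h2 hx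
          simp only [Finset.mem_union, Finset.mem_sdiff] at this ⊢
          rcases this with (hh | hh) | hh
          · exact Or.inl (Or.inl hh)
          · exact Or.inl (Or.inr hh.1)
          · exact Or.inr hh
        · rintro ⟨x, hx⟩
          rw [Finset.mem_inter] at hx
          have := h2 hx.2
          simp only [Finset.mem_union, Finset.mem_sdiff] at this
          rcases this with (hh | hh) | hh
          · exact hSB ⟨x, Finset.mem_inter.mpr ⟨hx.1, hh⟩⟩
          · exact hh.2 hx.1
          · exact (hSC x hh).1 hx.1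
      · left
        apply hpos
        have hNpos : 0 < NN R (A \ S) t := by
          rcases Nat.eq_zero_or_pos (NN R (A \ S) t) with h | h
          · rw [h] at hneg; simp at hneg
          · exact h
        have hNle : NN R (A \ S) t ≤ 1 := by
          unfold NN
          rw [Finset.card_le_one]
          intro X hX X' hX'
          rw [lemmaQ_memNN] at hX hX'
          have e1 : X = A \ S := Finset.eq_of_subset_of_card_le hX.1 (by rw [hX.2.2]; omega)
          have e2 : X' = A \ S := Finset.eq_of_subset_of_card_le hX'.1 (by rw [hX'.2.2]; omega)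
          rw [e1, e2]
        have hN1 : NN R (A \ S) t = 1 := by omega
        rw [hN1, mul_one] at hneg
        have hCpos : 0 < C.card := by
          rcases Nat.eq_zero_or_pos C.card with h | h
          · rw [h, pow_zero] at hneg
            have : 0 < 2 ^ k := by positivity
            omega
          · exact h
        obtain ⟨c, hc⟩ := Finset.card_pos.mp hCpos
        have hex := hNpos
        unfold NN at hex
        obtain ⟨X, hX⟩ := Finset.card_pos.mp hex
        rw [lemmaQ_memNN] at hX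
        have e1 : X = A \ S := Finset.eq_of_subset_of_card_le hX.1 (by rw [hX.2.2]; omega)
        have hbX : π c ∈ X := by
          rw [e1]
          exact Finset.mem_sdiff.mpr ⟨hπ c hc, (hSC c hc).2⟩
        have hyex : ∃ y ∈ A, y ∉ X := by
          by_contra hcon
          push Not at hcon
          have := Finset.card_le_card (show A ⊆ X from hcon)
          have h2 := hX.2.2
          omega
        obtain ⟨y, hyA, hyX⟩ := hyex
        have hyS : y ∈ S := by
          by_contra h'
          apply hyX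
          rw [e1]
          exact Finset.mem_sdiff.mpr ⟨hyA, h'⟩
        obtain ⟨g1, g2, g3⟩ := lemmaQ_exch (A := A) (hX.1.trans Finset.sdiff_subset) hX.2.1 hX.2.2
          hbX (fun e he => (hRC e he c hc).2) hyA hyX
        have hNp : 0 < NN (insert (S ∩ A) R) A t := by
          unfold NN
          apply Finset.card_pos.mpr
          refine ⟨insert y (X.erase (π c)), ?_⟩
          rw [lemmaQ_memNN]
          refine ⟨g1, ?_, g3⟩
          intro e he
          rw [Finset.mem_insert] at he
          rcases he with rfl | he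
          · exact ⟨y, Finset.mem_inter.mpr ⟨Finset.mem_inter.mpr ⟨hyS, hyA⟩,
              Finset.mem_insert_self _ _⟩⟩
          · exact g2 e he
        calc 2 ^ k < 2 ^ C.card := hneg
          _ = 2 ^ C.card * 1 := (mul_one _).symm
          _ ≤ 2 ^ C.card * NN (insert (S ∩ A) R) A t := Nat.mul_le_mul_left _ hNp
    · left
      apply hpos
      rw [hsplit, mul_add, pow_succ] at hN
      omega

theorem lemmaJ {R : Finset (Finset α)} {A S : Finset α} (t : ℕ) (hSA : S ⊆ A)
    (hR : ∀ e ∈ R, e ⊆ A) (hcard : ∀ e ∈ R, 2 ≤ e.card) (hS : ∀ e ∈ R, ¬ e ⊆ S)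
    (U : Finset α) (hU : ∀ u, u ∈ U ↔ ∃ e ∈ R, e \ S = {u})
    (hU1 : 1 ≤ U.card) (hE : (R.filter (fun e => (e ∩ U).Nonempty)).card + 1 ≤ 2 * U.card) :
    z R (A \ S) t ≤ z (insert S R) A t := by
  classical
  have hXU : ∀ X ∈ hit R (A \ S), U ⊆ X := by
    intro X hX u hu
    obtain ⟨e, he, heS⟩ := (hU u).1 hu
    rw [hit, mem_filter, mem_powerset] at hX
    obtain ⟨x, hx⟩ := hX.2 e he
    rw [mem_inter] at hx
    have h1 := mem_sdiff.1 (hX.1 hx.2)
    have h2 : x ∈ e \ S := mem_sdiff.2 ⟨hx.1, h1.2⟩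
    rw [heS, mem_singleton] at h2
    rw [← h2]; exact hx.2
  choose! rep hrep using fun u (hu : u ∈ U) => (hU u).1 hu
  have hinU : ∀ u ∈ U, u ∈ rep u := by
    intro u hu
    have : u ∈ rep u \ S := by rw [(hrep u hu).2]; exact mem_singleton_self u
    exact (mem_sdiff.1 this).1
  have hUS : ∀ u ∈ U, u ∉ S := by
    intro u hu
    have : u ∈ rep u \ S := by rw [(hrep u hu).2]; exact mem_singleton_self u
    exact (mem_sdiff.1 this).2
  have hrepinj : Set.InjOn rep (U : Set α) := by
    intro u hu w hw h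
    have h1 := (hrep u hu).2
    have h2 := (hrep w hw).2
    rw [h, h2] at h1
    exact (singleton_injective h1).symm
  set EU := R.filter (fun e => (e ∩ U).Nonempty) with hEU
  have hsub : U.image rep ⊆ EU := by
    intro e he
    obtain ⟨u, hu, rfl⟩ := mem_image.1 he
    rw [hEU, mem_filter]
    exact ⟨(hrep u hu).1, ⟨u, mem_inter.2 ⟨hinU u hu, hu⟩⟩⟩
  set F := EU \ U.image rep with hF
  have hcF : F.card < U.card := by
    have h1 : F.card = EU.card - (U.image rep).card := card_sdiff_of_subset hsub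
    have h2 : (U.image rep).card = U.card := card_image_of_injOn hrepinj
    have h3 := card_le_card hsub
    omega
  have hFex : ∀ f ∈ F, ∃ x, x ∈ f ∧ x ∈ U := by
    intro f hf
    have h1 := (mem_sdiff.1 hf).1
    rw [hEU, mem_filter] at h1
    obtain ⟨x, hx⟩ := h1.2
    exact ⟨x, mem_inter.1 hx⟩
  have hαne : ∃ _ : α, True := by
    obtain ⟨u, _⟩ := card_pos.1 (by omega : 0 < U.card)
    exact ⟨u, trivial⟩
  obtain ⟨a0, _⟩ := hαne
  haveI : Inhabited α := ⟨a0⟩
  choose! r hr using hFex
  have hu0 : ∃ u0 ∈ U, u0 ∉ F.image r := by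
    by_contra hcon
    push Not at hcon
    have h1 := card_le_card (show U ⊆ F.image r from hcon)
    have h2 : (F.image r).card ≤ F.card := card_image_le
    omega
  obtain ⟨u0, hu0, hu0F⟩ := hu0
  have hv : ∃ v ∈ rep u0, v ∈ S := by
    by_contra hcon
    push Not at hcon
    have h1 : rep u0 \ S = rep u0 := by
      apply sdiff_eq_self_of_disjoint
      rw [disjoint_left]
      exact hcon
    have h2 := hcard _ (hrep u0 hu0).1
    rw [← h1, (hrep u0 hu0).2, card_singleton] at h2
    omega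
  obtain ⟨v, hvr, hvS⟩ := hv
  have hu0S := hUS u0 hu0
  have hvu : v ≠ u0 := fun h => hu0S (h ▸ hvS)
  have hvX : ∀ X ∈ hit R (A \ S), v ∉ X := by
    intro X hX hv
    rw [hit, mem_filter, mem_powerset] at hX
    exact (mem_sdiff.1 (hX.1 hv)).2 hvS
  have hφ : ∀ X ∈ hit R (A \ S), insert v (X.erase u0) ∈ hit (insert S R) A := by
    intro X hX
    have hXU' := hXU X hX
    have hX' := hX
    rw [hit, mem_filter, mem_powerset] at hX'
    rw [hit, mem_filter, mem_powerset]
    refine ⟨?_, ?_⟩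
    · intro x hx
      rcases mem_insert.1 hx with h | h
      · rw [h]; exact hSA hvS
      · exact (mem_sdiff.1 (hX'.1 (mem_of_mem_erase h))).1
    · intro e he
      rcases mem_insert.1 he with h | h
      · rw [h]; exact ⟨v, mem_inter.2 ⟨hvS, mem_insert_self _ _⟩⟩
      · obtain ⟨x, hx⟩ := hX'.2 e h
        rw [mem_inter] at hx
        by_cases hxu : x = u0
        · have heEU : e ∈ EU := by
            rw [hEU, mem_filter]
            exact ⟨h, ⟨u0, mem_inter.2 ⟨hxu ▸ hx.1, hu0⟩⟩⟩
          by_cases heF : e ∈ F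
          · have h1 := hr e heF
            have h2 : r e ≠ u0 := by
              intro h3
              exact hu0F (mem_image.2 ⟨e, heF, h3⟩)
            exact ⟨r e, mem_inter.2 ⟨h1.1, mem_insert_of_mem (mem_erase.2 ⟨h2, hXU' h1.2⟩)⟩⟩
          · have h1 : e ∈ U.image rep := by
              by_contra hcon
              exact heF (mem_sdiff.2 ⟨heEU, hcon⟩)
            obtain ⟨u, hu, hue⟩ := mem_image.1 h1
            by_cases huu : u = u0
            · refine ⟨v, mem_inter.2 ⟨?_, mem_insert_self _ _⟩⟩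
              rw [← hue, huu]; exact hvr
            · refine ⟨u, mem_inter.2 ⟨?_, mem_insert_of_mem (mem_erase.2 ⟨huu, hXU' hu⟩)⟩⟩
              rw [← hue]; exact hinU u hu
        · exact ⟨x, mem_inter.2 ⟨hx.1, mem_insert_of_mem (mem_erase.2 ⟨hxu, hx.2⟩)⟩⟩
  have hφcard : ∀ X ∈ hit R (A \ S), (insert v (X.erase u0)).card = X.card := by
    intro X hX
    have h1 : v ∉ X.erase u0 := fun h => hvX X hX (mem_of_mem_erase h)
    have h2 : u0 ∈ X := hXU X hX hu0
    rw [card_insert_of_notMem h1]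
    exact card_erase_add_one h2
  have hback : ∀ X ∈ hit R (A \ S), insert u0 ((insert v (X.erase u0)).erase v) = X := by
    intro X hX
    have h1 : v ∉ X.erase u0 := fun h => hvX X hX (mem_of_mem_erase h)
    rw [erase_insert h1]
    exact insert_erase (hXU X hX hu0)
  have hφinj : ∀ X ∈ hit R (A \ S), ∀ X' ∈ hit R (A \ S),
      insert v (X.erase u0) = insert v (X'.erase u0) → X = X' := by
    intro X hX X' hX' h
    rw [← hback X hX, ← hback X' hX', h]
  unfold z
  have hmem : ∀ X ∈ (hit R (A \ S)).filter (fun X => X.card ≤ t), X ∈ hit R (A \ S) :=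
    fun X hX => (mem_filter.1 hX).1
  calc ∑ X ∈ (hit R (A \ S)).filter (fun X => X.card ≤ t), (50 / 13 : ℝ) ^ (t - X.card)
      = ∑ X ∈ (hit R (A \ S)).filter (fun X => X.card ≤ t),
          (50 / 13 : ℝ) ^ (t - (insert v (X.erase u0)).card) := by
        apply sum_congr rfl
        intro X hX
        rw [hφcard X (hmem X hX)]
    _ = ∑ Y ∈ ((hit R (A \ S)).filter (fun X => X.card ≤ t)).image
          (fun X => insert v (X.erase u0)), (50 / 13 : ℝ) ^ (t - Y.card) := by
        rw [sum_image]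
        intro X hX X' hX' h
        exact hφinj X (hmem X hX) X' (hmem X' hX') h
    _ ≤ _ := by
        apply sum_le_sum_of_subset_of_nonneg
        · intro Y hY
          obtain ⟨X, hX, rfl⟩ := mem_image.1 hY
          rw [mem_filter]
          refine ⟨hφ X (hmem X hX), ?_⟩
          show (insert v (X.erase u0)).card ≤ t
          rw [hφcard X (hmem X hX)]
          exact (mem_filter.1 hX).2
        · intro Y _ _
          positivity

theorem z_nonneg (R : Finset (Finset α)) (A : Finset α) (t : ℕ) : 0 ≤ z R A t := by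
  unfold z
  exact Finset.sum_nonneg fun X _ => by positivity

theorem zz_mem {R : Finset (Finset α)} {A : Finset α} {t : ℕ} {X : Finset α} :
    X ∈ (hit R A).filter (fun X => X.card ≤ t) ↔
      (X ⊆ A ∧ ∀ e ∈ R, (e ∩ X).Nonempty) ∧ X.card ≤ t := by
  unfold hit
  rw [Finset.mem_filter, Finset.mem_filter, Finset.mem_powerset]

/-- positive weight gives a hitting set -/
theorem exists_of_z_pos {R : Finset (Finset α)} {A : Finset α} {t : ℕ} (h : 0 < z R A t) :
    ∃ X ⊆ A, X.card ≤ t ∧ ∀ e ∈ R, (e ∩ X).Nonempty := by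
  unfold z at h
  obtain ⟨X, hX⟩ := Finset.nonempty_of_sum_ne_zero h.ne'
  rw [zz_mem] at hX
  exact ⟨X, hX.1.1, hX.2, hX.1.2⟩

/-- splitting the weight function according to an element -/
theorem zz_elem (R : Finset (Finset α)) (A : Finset α) (t : ℕ) (v : α) :
    z R A t = z R (A.erase v) t +
      ∑ X ∈ ((hit R A).filter (fun X => X.card ≤ t)).filter (fun X => v ∈ X),
        (50 / 13 : ℝ) ^ (t - X.card) := by
  unfold z
  rw [← Finset.sum_filter_add_sum_filter_not ((hit R A).filter (fun X => X.card ≤ t))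
    (fun X => v ∈ X), add_comm]
  congr 1
  apply Finset.sum_congr _ (fun _ _ => rfl)
  ext X
  rw [Finset.mem_filter, zz_mem, zz_mem, Finset.subset_erase]
  tauto

/-- a fresh element -/
theorem z_fresh {R : Finset (Finset α)} {A : Finset α} (t : ℕ) {v : α} (hv : v ∈ A)
    (hvR : ∀ e ∈ R, v ∉ e) : z R A t ≤ (63 / 50 : ℝ) * z R (A.erase v) t := by
  rw [zz_elem R A t v]
  have h1 : ∑ X ∈ ((hit R A).filter (fun X => X.card ≤ t)).filter (fun X => v ∈ X),
        (50 / 13 : ℝ) ^ (t - X.card) ≤ (13 / 50 : ℝ) * z R (A.erase v) t := by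
    unfold z
    rw [Finset.mul_sum]
    calc ∑ X ∈ ((hit R A).filter (fun X => X.card ≤ t)).filter (fun X => v ∈ X),
          (50 / 13 : ℝ) ^ (t - X.card)
        = ∑ X ∈ ((hit R A).filter (fun X => X.card ≤ t)).filter (fun X => v ∈ X),
          (13 / 50 : ℝ) * (50 / 13 : ℝ) ^ (t - (X.erase v).card) := by
          apply Finset.sum_congr rfl
          intro X hX
          rw [Finset.mem_filter, zz_mem] at hX
          obtain ⟨⟨⟨hXA, hXR⟩, hXt⟩, hvX⟩ := hX
          rw [Finset.card_erase_of_mem hvX]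
          have h2 : 0 < X.card := Finset.card_pos.2 ⟨v, hvX⟩
          have h3 : t - (X.card - 1) = (t - X.card) + 1 := by omega
          rw [h3, pow_succ]
          ring
      _ = ∑ X' ∈ (((hit R A).filter (fun X => X.card ≤ t)).filter (fun X => v ∈ X)).image
            (fun X => X.erase v),
          (13 / 50 : ℝ) * (50 / 13 : ℝ) ^ (t - X'.card) := by
          rw [Finset.sum_image]
          intro X hX X' hX' hXX'
          rw [Finset.mem_coe, Finset.mem_filter] at hX hX'
          have h4 := congrArg (insert v) hXX'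
          simp only at h4
          rwa [Finset.insert_erase hX.2, Finset.insert_erase hX'.2] at h4
      _ ≤ ∑ X' ∈ (hit R (A.erase v)).filter (fun X => X.card ≤ t),
          (13 / 50 : ℝ) * (50 / 13 : ℝ) ^ (t - X'.card) := by
          apply Finset.sum_le_sum_of_subset_of_nonneg
          · intro X' hX'
            rw [Finset.mem_image] at hX'
            obtain ⟨X, hX, rfl⟩ := hX'
            rw [Finset.mem_filter, zz_mem] at hX
            obtain ⟨⟨⟨hXA, hXR⟩, hXt⟩, hvX⟩ := hX
            rw [zz_mem]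
            refine ⟨⟨Finset.erase_subset_erase v hXA, fun e he => ?_⟩,
              (Finset.card_le_card (Finset.erase_subset v X)).trans hXt⟩
            obtain ⟨x, hx⟩ := hXR e he
            rw [Finset.mem_inter] at hx
            refine ⟨x, Finset.mem_inter.2 ⟨hx.1, Finset.mem_erase.2 ⟨?_, hx.2⟩⟩⟩
            rintro rfl
            exact hvR e he hx.1
          · intro X _ _
            positivity
  linarith

/-- splitting according to a test `S` -/
theorem z_split (R : Finset (Finset α)) (A S : Finset α) (t : ℕ) :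
    z R A t = z (insert S R) A t + z R (A \ S) t := by
  unfold z
  rw [← Finset.sum_filter_add_sum_filter_not ((hit R A).filter (fun X => X.card ≤ t))
    (fun X => (S ∩ X).Nonempty)]
  congr 1
  · apply Finset.sum_congr _ (fun _ _ => rfl)
    ext X
    rw [Finset.mem_filter, zz_mem, zz_mem, Finset.forall_mem_insert]
    tauto
  · apply Finset.sum_congr _ (fun _ _ => rfl)
    ext X
    rw [Finset.mem_filter, zz_mem, zz_mem, Finset.subset_sdiff, Finset.not_nonempty_iff_eq_empty,
      ← Finset.disjoint_iff_inter_eq_empty]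
    have : Disjoint S X ↔ Disjoint X S := disjoint_comm
    tauto

/-- the sets containing `v` -/
theorem z_bad (R : Finset (Finset α)) (A : Finset α) (t : ℕ) {v : α} (hv : v ∈ A) :
    z (insert {v} R) A (t + 1) = z (R.filter (fun e => v ∉ e)) (A.erase v) t := by
  unfold z
  refine Finset.sum_bij' (fun X _ => X.erase v) (fun X _ => insert v X) ?_ ?_ ?_ ?_ ?_
  · intro X hX
    rw [zz_mem, Finset.forall_mem_insert] at hX
    obtain ⟨⟨hXA, hvX, hXR⟩, hXt⟩ := hX
    have hvX' : v ∈ X := by
      obtain ⟨x, hx⟩ := hvX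
      rw [Finset.mem_inter, Finset.mem_singleton] at hx
      rw [← hx.1]; exact hx.2
    rw [zz_mem]
    refine ⟨⟨Finset.erase_subset_erase v hXA, fun e he => ?_⟩, ?_⟩
    · rw [Finset.mem_filter] at he
      obtain ⟨x, hx⟩ := hXR e he.1
      rw [Finset.mem_inter] at hx
      refine ⟨x, Finset.mem_inter.2 ⟨hx.1, Finset.mem_erase.2 ⟨?_, hx.2⟩⟩⟩
      rintro rfl
      exact he.2 hx.1
    · rw [Finset.card_erase_of_mem hvX']
      omega
  · intro X hX
    rw [zz_mem] at hX
    obtain ⟨⟨hXA, hXR⟩, hXt⟩ := hX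
    rw [zz_mem, Finset.forall_mem_insert]
    refine ⟨⟨?_, ?_, fun e he => ?_⟩, ?_⟩
    · rw [Finset.insert_subset_iff]
      exact ⟨hv, hXA.trans (Finset.erase_subset v A)⟩
    · exact ⟨v, Finset.mem_inter.2 ⟨Finset.mem_singleton_self v, Finset.mem_insert_self v X⟩⟩
    · by_cases hve : v ∈ e
      · exact ⟨v, Finset.mem_inter.2 ⟨hve, Finset.mem_insert_self v X⟩⟩
      · obtain ⟨x, hx⟩ := hXR e (Finset.mem_filter.2 ⟨he, hve⟩)
        rw [Finset.mem_inter] at hx
        exact ⟨x, Finset.mem_inter.2 ⟨hx.1, Finset.mem_insert_of_mem hx.2⟩⟩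
    · exact (Finset.card_insert_le v X).trans (by omega)
  · intro X hX
    rw [zz_mem, Finset.forall_mem_insert] at hX
    obtain ⟨⟨hXA, hvX, hXR⟩, hXt⟩ := hX
    have hvX' : v ∈ X := by
      obtain ⟨x, hx⟩ := hvX
      rw [Finset.mem_inter, Finset.mem_singleton] at hx
      rw [← hx.1]; exact hx.2
    exact Finset.insert_erase hvX'
  · intro X hX
    rw [zz_mem] at hX
    have hvX : v ∉ X := fun h => (Finset.mem_erase.1 (hX.1.1 h)).1 rfl
    exact Finset.erase_insert hvX
  · intro X hX
    rw [zz_mem, Finset.forall_mem_insert] at hX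
    obtain ⟨⟨hXA, hvX, hXR⟩, hXt⟩ := hX
    have hvX' : v ∈ X := by
      obtain ⟨x, hx⟩ := hvX
      rw [Finset.mem_inter, Finset.mem_singleton] at hx
      rw [← hx.1]; exact hx.2
    have h2 : 0 < X.card := Finset.card_pos.2 ⟨v, hvX'⟩
    rw [Finset.card_erase_of_mem hvX']
    congr 1
    omega

theorem zz_NN_mono (R : Finset (Finset α)) {A B : Finset α} (h : A ⊆ B) (t : ℕ) :
    NN R A t ≤ NN R B t := by
  unfold NN hit
  apply Finset.card_le_card
  intro X hX
  rw [Finset.mem_filter, Finset.mem_filter, Finset.mem_powerset] at hX ⊢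
  exact ⟨⟨hX.1.1.trans h, hX.1.2⟩, hX.2⟩

theorem zz_step (R : Finset (Finset α)) (A : Finset α) (t : ℕ) {v : α} (hv : v ∈ A) :
    (63 / 50 : ℝ) * z R (A.erase v) t ≤ z R A t + (13 / 50 : ℝ) * NN R A t := by
  rw [zz_elem R A t v]
  -- split off the sets of size `t`
  have h0 : z R (A.erase v) t = NN R (A.erase v) t +
      ∑ X ∈ ((hit R (A.erase v)).filter (fun X => X.card ≤ t)).filter (fun X => ¬ X.card = t),
        (50 / 13 : ℝ) ^ (t - X.card) := by
    unfold z
    rw [← Finset.sum_filter_add_sum_filter_not ((hit R (A.erase v)).filter (fun X => X.card ≤ t))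
      (fun X => X.card = t)]
    congr 1
    have h1 : ((hit R (A.erase v)).filter (fun X => X.card ≤ t)).filter (fun X => X.card = t) =
        (hit R (A.erase v)).filter (fun X => X.card = t) := by
      ext X
      simp only [Finset.mem_filter]
      constructor
      · rintro ⟨⟨h1, h2⟩, h3⟩; exact ⟨h1, h3⟩
      · rintro ⟨h1, h2⟩; exact ⟨⟨h1, h2.le⟩, h2⟩
    rw [h1]
    unfold NN
    rw [Finset.card_eq_sum_ones]
    push_cast
    apply Finset.sum_congr rfl
    intro X hX
    rw [Finset.mem_filter] at hX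
    rw [hX.2]
    simp
  have h1 : (13 / 50 : ℝ) *
      ∑ X ∈ ((hit R (A.erase v)).filter (fun X => X.card ≤ t)).filter (fun X => ¬ X.card = t),
        (50 / 13 : ℝ) ^ (t - X.card) ≤
      ∑ X ∈ ((hit R A).filter (fun X => X.card ≤ t)).filter (fun X => v ∈ X),
        (50 / 13 : ℝ) ^ (t - X.card) := by
    rw [Finset.mul_sum]
    calc ∑ X ∈ ((hit R (A.erase v)).filter (fun X => X.card ≤ t)).filter (fun X => ¬ X.card = t),
        (13 / 50 : ℝ) * (50 / 13 : ℝ) ^ (t - X.card)
        = ∑ X ∈ ((hit R (A.erase v)).filter (fun X => X.card ≤ t)).filter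
            (fun X => ¬ X.card = t), (50 / 13 : ℝ) ^ (t - (insert v X).card) := by
          apply Finset.sum_congr rfl
          intro X hX
          rw [Finset.mem_filter, zz_mem] at hX
          obtain ⟨⟨⟨hXA, hXR⟩, hXt⟩, hne⟩ := hX
          have hvX : v ∉ X := fun h => (Finset.mem_erase.1 (hXA h)).1 rfl
          rw [Finset.card_insert_of_notMem hvX]
          have h3 : t - X.card = (t - (X.card + 1)) + 1 := by omega
          rw [h3, pow_succ]
          ring
      _ = ∑ X' ∈ (((hit R (A.erase v)).filter (fun X => X.card ≤ t)).filter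
            (fun X => ¬ X.card = t)).image (fun X => insert v X),
            (50 / 13 : ℝ) ^ (t - X'.card) := by
          rw [Finset.sum_image]
          intro X hX X' hX' hXX'
          rw [Finset.mem_coe, Finset.mem_filter, zz_mem] at hX hX'
          have hvX : v ∉ X := fun h => (Finset.mem_erase.1 (hX.1.1.1 h)).1 rfl
          have hvX' : v ∉ X' := fun h => (Finset.mem_erase.1 (hX'.1.1.1 h)).1 rfl
          have h4 := congrArg (fun Z => Z.erase v) hXX'
          simp only at h4
          rwa [Finset.erase_insert hvX, Finset.erase_insert hvX'] at h4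
      _ ≤ _ := by
          apply Finset.sum_le_sum_of_subset_of_nonneg
          · intro X' hX'
            rw [Finset.mem_image] at hX'
            obtain ⟨X, hX, rfl⟩ := hX'
            rw [Finset.mem_filter, zz_mem] at hX
            obtain ⟨⟨⟨hXA, hXR⟩, hXt⟩, hne⟩ := hX
            rw [Finset.mem_filter, zz_mem]
            refine ⟨⟨⟨?_, fun e he => ?_⟩, ?_⟩, Finset.mem_insert_self v X⟩
            · rw [Finset.insert_subset_iff]
              exact ⟨hv, hXA.trans (Finset.erase_subset v A)⟩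
            · obtain ⟨x, hx⟩ := hXR e he
              rw [Finset.mem_inter] at hx
              exact ⟨x, Finset.mem_inter.2 ⟨hx.1, Finset.mem_insert_of_mem hx.2⟩⟩
            · exact (Finset.card_insert_le v X).trans (by omega)
          · intro X _ _
            positivity
  have h2 : (NN R (A.erase v) t : ℝ) ≤ NN R A t := by
    exact_mod_cast zz_NN_mono R (Finset.erase_subset v A) t
  linarith

/-- adding a triple -/
theorem z_triple (R : Finset (Finset α)) (A S : Finset α) (t : ℕ) (hS : S ⊆ A)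
    (hcard : S.card = 3) :
    2 * z R (A \ S) t ≤ z R A t + (51 / 50 : ℝ) * NN R A t := by
  obtain ⟨a, b, c, hab, hac, hbc, rfl⟩ := Finset.card_eq_three.1 hcard
  have ha : a ∈ A := hS (by simp)
  have hb : b ∈ A.erase a := Finset.mem_erase.2 ⟨hab.symm, hS (by simp)⟩
  have hc : c ∈ (A.erase a).erase b :=
    Finset.mem_erase.2 ⟨hbc.symm, Finset.mem_erase.2 ⟨hac.symm, hS (by simp)⟩⟩
  have h1 := zz_step R A t ha
  have h2 := zz_step R (A.erase a) t hb
  have h3 := zz_step R ((A.erase a).erase b) t hc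
  have he : ((A.erase a).erase b).erase c = A \ {a, b, c} := by
    ext x
    simp only [Finset.mem_erase, Finset.mem_sdiff, Finset.mem_insert, Finset.mem_singleton, not_or]
    tauto
  rw [he] at h3
  have n1 : (NN R (A.erase a) t : ℝ) ≤ NN R A t := by
    exact_mod_cast zz_NN_mono R (Finset.erase_subset a A) t
  have n2 : (NN R ((A.erase a).erase b) t : ℝ) ≤ NN R A t := by
    exact_mod_cast zz_NN_mono R ((Finset.erase_subset b _).trans (Finset.erase_subset a A)) t
  have n0 : (0 : ℝ) ≤ NN R A t := Nat.cast_nonneg _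
  have z3 := z_nonneg R (A \ {a, b, c}) t
  nlinarith

/-- forced elements -/
theorem z_forced (R : Finset (Finset α)) (A S U : Finset α) (t : ℕ)
    (hR : ∀ e ∈ R, e ⊆ A) (hU : ∀ u, u ∈ U ↔ ∃ e ∈ R, e \ S = {u}) :
    (z R (A \ S) t ≠ 0 → U.card ≤ t) ∧
    (U.card ≤ t → z R (A \ S) t =
      z ((R.filter (fun e => Disjoint e U)).image (fun e => e \ S)) (A \ (S ∪ U)) (t - U.card)) := by
  have hUX : ∀ X : Finset α, X ⊆ A \ S → (∀ e ∈ R, (e ∩ X).Nonempty) → U ⊆ X := by
    intro X hXA hXR u hu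
    obtain ⟨e, he, heS⟩ := (hU u).1 hu
    obtain ⟨x, hx⟩ := hXR e he
    rw [Finset.mem_inter] at hx
    have h1 : x ∈ e \ S := Finset.mem_sdiff.2 ⟨hx.1, (Finset.mem_sdiff.1 (hXA hx.2)).2⟩
    rw [heS, Finset.mem_singleton] at h1
    rw [← h1]
    exact hx.2
  have hUA : U ⊆ A \ S := by
    intro u hu
    obtain ⟨e, he, heS⟩ := (hU u).1 hu
    have h1 : u ∈ e \ S := by rw [heS]; exact Finset.mem_singleton_self u
    rw [Finset.mem_sdiff] at h1 ⊢
    exact ⟨hR e he h1.1, h1.2⟩
  constructor
  · intro h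
    unfold z at h
    obtain ⟨X, hX⟩ := Finset.nonempty_of_sum_ne_zero h
    rw [zz_mem] at hX
    exact (Finset.card_le_card (hUX X hX.1.1 hX.1.2)).trans hX.2
  · intro hUt
    unfold z
    refine Finset.sum_bij' (fun X _ => X \ U) (fun X _ => X ∪ U) ?_ ?_ ?_ ?_ ?_
    · intro X hX
      rw [zz_mem] at hX
      obtain ⟨⟨hXA, hXR⟩, hXt⟩ := hX
      have hUs := hUX X hXA hXR
      rw [zz_mem]
      refine ⟨⟨?_, fun e' he' => ?_⟩, ?_⟩
      · intro x hx
        rw [Finset.mem_sdiff] at hx
        have h1 := hXA hx.1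
        rw [Finset.mem_sdiff] at h1 ⊢
        refine ⟨h1.1, fun h2 => ?_⟩
        rw [Finset.mem_union] at h2
        rcases h2 with h2 | h2
        · exact h1.2 h2
        · exact hx.2 h2
      · rw [Finset.mem_image] at he'
        obtain ⟨e, he, rfl⟩ := he'
        rw [Finset.mem_filter] at he
        obtain ⟨x, hx⟩ := hXR e he.1
        rw [Finset.mem_inter] at hx
        refine ⟨x, Finset.mem_inter.2 ⟨Finset.mem_sdiff.2 ⟨hx.1, (Finset.mem_sdiff.1 (hXA hx.2)).2⟩,
          Finset.mem_sdiff.2 ⟨hx.2, fun h2 => ?_⟩⟩⟩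
        exact Finset.disjoint_left.1 he.2 hx.1 h2
      · rw [Finset.card_sdiff_of_subset hUs]
        omega
    · intro X hX
      rw [zz_mem] at hX
      obtain ⟨⟨hXA, hXR⟩, hXt⟩ := hX
      have hdis : Disjoint X U := by
        rw [Finset.disjoint_left]
        intro x hx hxU
        have := hXA hx
        rw [Finset.mem_sdiff, Finset.mem_union] at this
        exact this.2 (Or.inr hxU)
      rw [zz_mem]
      refine ⟨⟨?_, fun e he => ?_⟩, ?_⟩
      · rw [Finset.union_subset_iff]
        refine ⟨fun x hx => ?_, hUA⟩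
        have := hXA hx
        rw [Finset.mem_sdiff, Finset.mem_union] at this
        rw [Finset.mem_sdiff]
        exact ⟨this.1, fun h => this.2 (Or.inl h)⟩
      · by_cases hd : Disjoint e U
        · obtain ⟨x, hx⟩ := hXR (e \ S) (Finset.mem_image.2 ⟨e, Finset.mem_filter.2 ⟨he, hd⟩, rfl⟩)
          rw [Finset.mem_inter] at hx
          exact ⟨x, Finset.mem_inter.2 ⟨(Finset.mem_sdiff.1 hx.1).1, Finset.mem_union_left _ hx.2⟩⟩
        · rw [Finset.not_disjoint_iff] at hd
          obtain ⟨x, hx1, hx2⟩ := hd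
          exact ⟨x, Finset.mem_inter.2 ⟨hx1, Finset.mem_union_right _ hx2⟩⟩
      · rw [Finset.card_union_of_disjoint hdis]
        omega
    · intro X hX
      rw [zz_mem] at hX
      exact Finset.sdiff_union_of_subset (hUX X hX.1.1 hX.1.2)
    · intro X hX
      rw [zz_mem] at hX
      have hdis : Disjoint X U := by
        rw [Finset.disjoint_left]
        intro x hx hxU
        have := hX.1.1 hx
        rw [Finset.mem_sdiff, Finset.mem_union] at this
        exact this.2 (Or.inr hxU)
      exact Finset.union_sdiff_cancel_right hdis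
    · intro X hX
      rw [zz_mem] at hX
      have hUs := hUX X hX.1.1 hX.1.2
      rw [Finset.card_sdiff_of_subset hUs]
      have := Finset.card_le_card hUs
      congr 1
      omega

theorem h170_Y_eq (R : Finset (Finset α)) (A : Finset α) :
    Y R A = ∑ X ∈ A.powerset, if (∀ e ∈ R, (e ∩ X).Nonempty) then (13 / 50 : ℝ) ^ X.card else 0 := by
  unfold Y hit
  rw [Finset.sum_filter]

theorem h170_Y_nonneg (R : Finset (Finset α)) (A : Finset α) : 0 ≤ Y R A := by
  unfold Y
  exact Finset.sum_nonneg fun X _ => by positivity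

theorem h170_Y_mono {R R' : Finset (Finset α)} (h : R ⊆ R') (A : Finset α) : Y R' A ≤ Y R A := by
  unfold Y
  refine Finset.sum_le_sum_of_subset_of_nonneg ?_ (fun X _ _ => by positivity)
  intro X hX
  unfold hit at hX ⊢
  rw [Finset.mem_filter] at hX ⊢
  exact ⟨hX.1, fun e he => hX.2 e (h he)⟩

theorem h170_Y_insert (R : Finset (Finset α)) (A : Finset α) (v : α) (hv : v ∉ A) :
    Y R (insert v A) = Y R A + 13 / 50 * Y (R.filter (fun e => v ∉ e)) A := by
  rw [h170_Y_eq, h170_Y_eq, h170_Y_eq, Finset.sum_powerset_insert hv, Finset.mul_sum]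
  congr 1
  refine Finset.sum_congr rfl fun t ht => ?_
  have hvt : v ∉ t := fun h => hv (Finset.mem_powerset.1 ht h)
  have hiff : (∀ e ∈ R, (e ∩ insert v t).Nonempty) ↔ (∀ e ∈ R.filter (fun e => v ∉ e), (e ∩ t).Nonempty) := by
    constructor
    · intro h e he
      rw [Finset.mem_filter] at he
      have h1 := h e he.1
      rwa [Finset.inter_insert_of_notMem he.2] at h1
    · intro h e he
      by_cases hve : v ∈ e
      · exact ⟨v, Finset.mem_inter.2 ⟨hve, Finset.mem_insert_self v t⟩⟩
      · rw [Finset.inter_insert_of_notMem hve]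
        exact h e (Finset.mem_filter.2 ⟨he, hve⟩)
  by_cases hc : ∀ e ∈ R, (e ∩ insert v t).Nonempty
  · rw [if_pos hc, if_pos (hiff.1 hc), Finset.card_insert_of_notMem hvt, pow_succ]
    ring
  · rw [if_neg hc, if_neg (fun h => hc (hiff.2 h)), mul_zero]

/-- Harris inequality -/
theorem h170_harris (A : Finset α) : ∀ R1 R2 : Finset (Finset α),
    Y R1 A * Y R2 A ≤ (63 / 50 : ℝ) ^ A.card * Y (R1 ∪ R2) A := by
  induction A using Finset.induction_on with
  | empty =>
    intro R1 R2
    have h0 : ∀ R : Finset (Finset α), Y R ∅ = if R = ∅ then 1 else 0 := by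
      intro R
      rw [h170_Y_eq, Finset.powerset_empty, Finset.sum_singleton]
      by_cases hR : R = ∅
      · rw [if_pos hR, if_pos]
        · simp
        · intro e he
          rw [hR] at he
          simp at he
      · rw [if_neg hR, if_neg]
        intro h
        obtain ⟨e, he⟩ := Finset.nonempty_iff_ne_empty.2 hR
        have h1 := h e he
        rw [Finset.inter_empty] at h1
        exact Finset.not_nonempty_empty h1
    rw [h0, h0, h0, Finset.card_empty, pow_zero, one_mul]
    by_cases h1 : R1 = ∅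
    · by_cases h2 : R2 = ∅
      · rw [if_pos h1, if_pos h2, if_pos (by rw [h1, h2, Finset.empty_union])]
        norm_num
      · rw [if_neg h2, mul_zero]
        split_ifs <;> norm_num
    · rw [if_neg h1, zero_mul]
      split_ifs <;> norm_num
  | insert v A hv ih =>
    intro R1 R2
    rw [h170_Y_insert R1 A v hv, h170_Y_insert R2 A v hv, h170_Y_insert (R1 ∪ R2) A v hv, Finset.filter_union,
      Finset.card_insert_of_notMem hv, pow_succ]
    have i1 := ih R1 R2
    have i2 := ih (R1.filter (fun e => v ∉ e)) (R2.filter (fun e => v ∉ e))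
    have m1 := h170_Y_mono (Finset.filter_subset (fun e => v ∉ e) R1) A
    have m2 := h170_Y_mono (Finset.filter_subset (fun e => v ∉ e) R2) A
    set C : ℝ := (63 / 50 : ℝ) ^ A.card
    set a1 := Y R1 A
    set a2 := Y R2 A
    set b1 := Y (R1.filter (fun e => v ∉ e)) A
    set b2 := Y (R2.filter (fun e => v ∉ e)) A
    set u := Y (R1 ∪ R2) A
    set w := Y (R1.filter (fun e => v ∉ e) ∪ R2.filter (fun e => v ∉ e)) A
    have h1 : 0 ≤ (b1 - a1) * (b2 - a2) := mul_nonneg (by linarith) (by linarith)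
    nlinarith

theorem h170_Y_edge (R : Finset (Finset α)) (A e : Finset α) :
    Y (insert e R) A = Y R A - Y R (A \ e) := by
  rw [eq_sub_iff_add_eq]
  unfold Y
  have hdis : Disjoint (hit (insert e R) A) (hit R (A \ e)) := by
    rw [Finset.disjoint_left]
    intro X h1 h2
    unfold hit at h1 h2
    rw [Finset.mem_filter, Finset.mem_powerset] at h1 h2
    obtain ⟨x, hx⟩ := h1.2 e (Finset.mem_insert_self e R)
    rw [Finset.mem_inter] at hx
    exact (Finset.mem_sdiff.1 (h2.1 hx.2)).2 hx.1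
  rw [← Finset.sum_union hdis]
  refine Finset.sum_congr ?_ fun _ _ => rfl
  ext X
  unfold hit
  rw [Finset.mem_union, Finset.mem_filter, Finset.mem_filter, Finset.mem_filter, Finset.mem_powerset,
    Finset.mem_powerset]
  constructor
  · rintro (⟨h1, h2⟩ | ⟨h1, h2⟩)
    · exact ⟨h1, fun f hf => h2 f (Finset.mem_insert_of_mem hf)⟩
    · exact ⟨h1.trans Finset.sdiff_subset, h2⟩
  · rintro ⟨h1, h2⟩
    by_cases hc : (e ∩ X).Nonempty
    · left
      refine ⟨h1, fun f hf => ?_⟩
      rcases Finset.mem_insert.1 hf with rfl | hf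
      · exact hc
      · exact h2 f hf
    · right
      refine ⟨fun x hx => ?_, h2⟩
      rw [Finset.mem_sdiff]
      exact ⟨h1 hx, fun hxe => hc ⟨x, Finset.mem_inter.2 ⟨hxe, hx⟩⟩⟩

theorem h170_Y_empty (A : Finset α) : Y (∅ : Finset (Finset α)) A = (63 / 50 : ℝ) ^ A.card := by
  induction A using Finset.induction_on with
  | empty =>
    rw [h170_Y_eq, Finset.powerset_empty, Finset.sum_singleton]
    simp
  | insert v A hv ih =>
    rw [h170_Y_insert _ A v hv, Finset.filter_empty, ih, Finset.card_insert_of_notMem hv, pow_succ]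
    ring

theorem h170_pw {A e : Finset α} (h : e ⊆ A) :
    (63 / 50 : ℝ) ^ (A \ e).card = (63 / 50 : ℝ) ^ A.card * (50 / 63 : ℝ) ^ e.card := by
  have h1 : (A \ e).card + e.card = A.card := Finset.card_sdiff_add_card_eq_card h
  rw [← h1, pow_add, mul_assoc, ← mul_pow]
  norm_num

theorem h170_Y_one {A e : Finset α} (h : e ⊆ A) :
    Y {e} A = (63 / 50 : ℝ) ^ A.card * (1 - (50 / 63 : ℝ) ^ e.card) := by
  have h1 := h170_Y_edge (∅ : Finset (Finset α)) A e
  rw [h170_Y_empty, h170_Y_empty, h170_pw h] at h1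
  have h2 : (insert e (∅ : Finset (Finset α))) = {e} := rfl
  rw [← h2, h1]
  ring

theorem h170_Y_two {A e f : Finset α} (he : e ⊆ A) (hf : f ⊆ A) :
    Y {e, f} A = (63 / 50 : ℝ) ^ A.card *
      (1 - (50 / 63 : ℝ) ^ e.card - (50 / 63 : ℝ) ^ f.card + (50 / 63 : ℝ) ^ (e ∪ f).card) := by
  have h1 := h170_Y_edge ({f} : Finset (Finset α)) A e
  have h2 := h170_Y_edge (∅ : Finset (Finset α)) (A \ e) f
  have h3 : (insert f (∅ : Finset (Finset α))) = {f} := rfl
  rw [h3, h170_Y_empty, h170_Y_empty, sdiff_sdiff] at h2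
  have h4 : e ⊔ f = e ∪ f := rfl
  rw [h4, h170_pw he, h170_pw (Finset.union_subset he hf)] at h2
  rw [h170_Y_one hf, h2] at h1
  rw [h1]
  ring

/-- isolated pairs -/
def h170I (R : Finset (Finset α)) : Finset (Finset α) :=
  R.filter (fun e => e.card = 2 ∧ ∀ f ∈ R, f ≠ e → Disjoint e f)

theorem h170I_del (R : Finset (Finset α)) (e f : Finset α) :
    (h170I ((R.erase e).erase f)).card ≤ (h170I R).card + (e ∪ f).card := by
  classical
  set R' := (R.erase e).erase f with hR'
  have hsub : h170I R' ⊆ h170I R ∪ (h170I R').filter (fun g => (g ∩ (e ∪ f)).Nonempty) := by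
    intro g hg
    rw [Finset.mem_union]
    by_cases hc : (g ∩ (e ∪ f)).Nonempty
    · right
      exact Finset.mem_filter.2 ⟨hg, hc⟩
    · left
      unfold h170I at hg ⊢
      rw [Finset.mem_filter] at hg ⊢
      have hgR : g ∈ R := Finset.mem_of_mem_erase (Finset.mem_of_mem_erase hg.1)
      refine ⟨hgR, hg.2.1, ?_⟩
      intro k hk hkg
      have hdis : Disjoint g (e ∪ f) := by
        rw [Finset.disjoint_iff_inter_eq_empty]
        exact Finset.not_nonempty_iff_eq_empty.1 hc
      rw [Finset.disjoint_union_right] at hdis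
      by_cases hke : k = e
      · rw [hke]; exact hdis.1
      · by_cases hkf : k = f
        · rw [hkf]; exact hdis.2
        · exact hg.2.2 k (Finset.mem_erase.2 ⟨hkf, Finset.mem_erase.2 ⟨hke, hk⟩⟩) hkg
  refine (Finset.card_le_card hsub).trans ((Finset.card_union_le _ _).trans ?_)
  refine Nat.add_le_add_left ?_ _
  -- injection into e ∪ f
  have hch : ∀ g ∈ (h170I R').filter (fun g => (g ∩ (e ∪ f)).Nonempty), ∃ x, x ∈ g ∩ (e ∪ f) := by
    intro g hg
    exact (Finset.mem_filter.1 hg).2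
  rcases ((h170I R').filter (fun g => (g ∩ (e ∪ f)).Nonempty)).eq_empty_or_nonempty with hem | ⟨g0, hg0⟩
  · rw [hem]; simp
  have hne0 : Nonempty α := by
    obtain ⟨x, -⟩ := hch g0 hg0
    exact ⟨x⟩
  choose! φ hφ using hch
  refine Finset.card_le_card_of_injOn φ (fun g hg => (Finset.mem_inter.1 (hφ g hg)).2) ?_
  intro g hg k hk hgk
  have hg' : g ∈ (h170I R').filter (fun g => (g ∩ (e ∪ f)).Nonempty) := hg
  have hk' : k ∈ (h170I R').filter (fun g => (g ∩ (e ∪ f)).Nonempty) := hk
  by_contra hne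
  have h1 := hφ g hg'
  have h2 := hφ k hk'
  have hgI := (Finset.mem_filter.1 hg').1
  have hkI := (Finset.mem_filter.1 hk').1
  unfold h170I at hgI hkI
  rw [Finset.mem_filter] at hgI hkI
  have hd := hgI.2.2 k hkI.1 (fun h => hne h.symm)
  have hd2 := Finset.disjoint_left.1 hd (Finset.mem_inter.1 h1).1
  rw [hgk] at hd2
  exact hd2 (Finset.mem_inter.1 h2).1

theorem h170_step {R R1 R' : Finset (Finset α)} {A : Finset α} (hR : R1 ∪ R' = R) (s t : ℝ) (hs : 0 ≤ s)
    (h1 : (63 / 50 : ℝ) ^ A.card * s ≤ Y R1 A) (h2 : (63 / 50 : ℝ) ^ A.card * t ≤ Y R' A) (ht : 0 ≤ t) :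
    (63 / 50 : ℝ) ^ A.card * (s * t) ≤ Y R A := by
  have h3 := h170_harris A R1 R'
  rw [hR] at h3
  have hC : (0:ℝ) < (63 / 50 : ℝ) ^ A.card := by positivity
  have h4 : ((63 / 50 : ℝ) ^ A.card * s) * ((63 / 50 : ℝ) ^ A.card * t) ≤ Y R1 A * Y R' A :=
    mul_le_mul h1 h2 (by positivity) (h170_Y_nonneg _ _)
  have h5 : (63 / 50 : ℝ) ^ A.card * ((63 / 50 : ℝ) ^ A.card * (s * t)) ≤ (63 / 50 : ℝ) ^ A.card * Y R A := by
    calc _ = ((63 / 50 : ℝ) ^ A.card * s) * ((63 / 50 : ℝ) ^ A.card * t) := by ring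
      _ ≤ _ := h4.trans h3
  exact le_of_mul_le_mul_left h5 hC

theorem h170_main (A : Finset α) : ∀ n : ℕ, ∀ R : Finset (Finset α), R.card = n → (∀ e ∈ R, e ⊆ A) →
    (∀ e ∈ R, e.card = 2 ∨ e.card = 3) →
    (63 / 50 : ℝ) ^ A.card * ((51 / 125 : ℝ) ^ R.card * (1469 / 3969 / (51 / 125) : ℝ) ^ (h170I R).card) ≤ Y R A := by
  intro n
  induction n using Nat.strong_induction_on with
  | _ n ih =>
    intro R hn hR hcard
    set θ : ℝ := 1469 / 3969 / (51 / 125) with hθ
    have hθ0 : 0 < θ := by rw [hθ]; norm_num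
    have hθ1 : θ ≤ 1 := by rw [hθ]; norm_num
    by_cases hA : ∃ e ∈ R, e.card = 2 ∧ ∃ f ∈ R, f ≠ e ∧ ¬ Disjoint e f
    · obtain ⟨e, he, he2, f, hf, hfe, hdis⟩ := hA
      have hfe' : f ∈ R.erase e := Finset.mem_erase.2 ⟨hfe, hf⟩
      have hc1 : (R.erase e).card = n - 1 := by rw [Finset.card_erase_of_mem he, hn]
      have hc2 : ((R.erase e).erase f).card = n - 2 := by
        rw [Finset.card_erase_of_mem hfe', hc1]; omega
      have hn2 : 2 ≤ n := by
        have h1 : 0 < (R.erase e).card := Finset.card_pos.2 ⟨f, hfe'⟩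
        omega
      have hsub : ∀ g ∈ (R.erase e).erase f, g ∈ R := fun g hg =>
        Finset.mem_of_mem_erase (Finset.mem_of_mem_erase hg)
      have ihR := ih (n - 2) (by omega) ((R.erase e).erase f) hc2 (fun g hg => hR g (hsub g hg))
        (fun g hg => hcard g (hsub g hg))
      have hun : ({e, f} : Finset (Finset α)) ∪ (R.erase e).erase f = R := by
        ext g
        simp only [Finset.mem_union, Finset.mem_insert, Finset.mem_singleton, Finset.mem_erase]
        constructor
        · rintro ((h | h) | h)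
          · rw [h]; exact he
          · rw [h]; exact hf
          · exact h.2.2
        · intro h
          by_cases h1 : g = e
          · exact Or.inl (Or.inl h1)
          · by_cases h2 : g = f
            · exact Or.inl (Or.inr h2)
            · exact Or.inr ⟨h2, h1, h⟩
      have hI := h170I_del R e f
      set d := (e ∪ f).card with hd
      have hinter : 0 < (e ∩ f).card := by
        rw [Finset.card_pos]
        rw [Finset.disjoint_iff_inter_eq_empty] at hdis
        exact Finset.nonempty_iff_ne_empty.2 hdis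
      have hui := Finset.card_union_add_card_inter e f
      have hY2 := h170_Y_two (hR e he) (hR f hf)
      have hkey : ∀ (s : ℝ) (D : ℕ), 0 ≤ s → d ≤ D →
          s ≤ 1 - (50 / 63 : ℝ) ^ e.card - (50 / 63 : ℝ) ^ f.card + (50 / 63 : ℝ) ^ d →
          (51 / 125 : ℝ) ^ 2 ≤ s * θ ^ D →
          (63 / 50 : ℝ) ^ A.card * ((51 / 125 : ℝ) ^ R.card * θ ^ (h170I R).card) ≤ Y R A := by
        intro s D hs hdD hs1 hs2
        have h1 : (63 / 50 : ℝ) ^ A.card * s ≤ Y {e, f} A := by
          rw [hY2]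
          exact mul_le_mul_of_nonneg_left hs1 (by positivity)
        have h2 := h170_step hun s _ hs h1 ihR (by positivity)
        refine le_trans ?_ h2
        refine mul_le_mul_of_nonneg_left ?_ (by positivity)
        rw [hc2, hn]
        have h3 : θ ^ ((h170I R).card + D) ≤ θ ^ (h170I ((R.erase e).erase f)).card :=
          pow_le_pow_of_le_one hθ0.le hθ1 (by omega)
        have h4 : (51 / 125 : ℝ) ^ n = (51 / 125 : ℝ) ^ 2 * (51 / 125 : ℝ) ^ (n - 2) := by
          rw [← pow_add]; congr 1; omega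
        rw [pow_add] at h3
        have hp1 : 0 ≤ (51 / 125 : ℝ) ^ (n - 2) := by positivity
        have hp2 : 0 ≤ θ ^ (h170I R).card := by positivity
        calc (51 / 125 : ℝ) ^ n * θ ^ (h170I R).card
            = (51 / 125 : ℝ) ^ 2 * ((51 / 125 : ℝ) ^ (n - 2) * θ ^ (h170I R).card) := by rw [h4]; ring
          _ ≤ (s * θ ^ D) * ((51 / 125 : ℝ) ^ (n - 2) * θ ^ (h170I R).card) :=
              mul_le_mul_of_nonneg_right hs2 (mul_nonneg hp1 hp2)
          _ = s * ((51 / 125 : ℝ) ^ (n - 2) * (θ ^ (h170I R).card * θ ^ D)) := by ring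
          _ ≤ s * ((51 / 125 : ℝ) ^ (n - 2) * θ ^ (h170I ((R.erase e).erase f)).card) :=
              mul_le_mul_of_nonneg_left (mul_le_mul_of_nonneg_left h3 hp1) hs
      rcases hcard f hf with hf2 | hf3
      · have hd3 : d ≤ 3 := by omega
        refine hkey (1 - (50 / 63 : ℝ) ^ 2 - (50 / 63 : ℝ) ^ 2 + (50 / 63 : ℝ) ^ 3) 3 (by norm_num) hd3 ?_ ?_
        · rw [he2, hf2]
          have := pow_le_pow_of_le_one (by norm_num : (0:ℝ) ≤ 50 / 63) (by norm_num) hd3
          linarith
        · rw [hθ]; norm_num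
      · have hd4 : d ≤ 4 := by omega
        refine hkey (1 - (50 / 63 : ℝ) ^ 2 - (50 / 63 : ℝ) ^ 3 + (50 / 63 : ℝ) ^ 4) 4 (by norm_num) hd4 ?_ ?_
        · rw [he2, hf3]
          have := pow_le_pow_of_le_one (by norm_num : (0:ℝ) ≤ 50 / 63) (by norm_num) hd4
          linarith
        · rw [hθ]; norm_num
    · push Not at hA
      have hall : ∀ e ∈ R, e.card = 2 → e ∈ h170I R := by
        intro e he he2
        unfold h170I
        exact Finset.mem_filter.2 ⟨he, he2, fun f hf hfe => hA e he he2 f hf hfe⟩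
      rcases R.eq_empty_or_nonempty with hemp | ⟨e, he⟩
      · rw [hemp, h170_Y_empty]
        have h1 : (h170I (∅ : Finset (Finset α))).card = 0 := by
          unfold h170I
          simp
        rw [h1]
        simp
      · have hc1 : (R.erase e).card = n - 1 := by rw [Finset.card_erase_of_mem he, hn]
        have hn1 : 1 ≤ n := by
          have h1 : 0 < R.card := Finset.card_pos.2 ⟨e, he⟩
          omega
        have hsub : ∀ g ∈ R.erase e, g ∈ R := fun g hg => Finset.mem_of_mem_erase hg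
        have ihR := ih (n - 1) (by omega) (R.erase e) hc1 (fun g hg => hR g (hsub g hg))
          (fun g hg => hcard g (hsub g hg))
        have hun : ({e} : Finset (Finset α)) ∪ R.erase e = R := by
          rw [← Finset.insert_eq, Finset.insert_erase he]
        have hIsub : h170I (R.erase e) ⊆ (h170I R).erase e := by
          intro g hg
          unfold h170I at hg
          rw [Finset.mem_filter] at hg
          exact Finset.mem_erase.2 ⟨Finset.ne_of_mem_erase hg.1, hall g (hsub g hg.1) hg.2.1⟩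
        have hIc := Finset.card_le_card hIsub
        have h4 : (51 / 125 : ℝ) ^ n = (51 / 125 : ℝ) * (51 / 125 : ℝ) ^ (n - 1) := by
          rw [← pow_succ']; congr 1; omega
        have hp1 : 0 ≤ (51 / 125 : ℝ) ^ (n - 1) := by positivity
        rcases hcard e he with he2 | he3
        · have h1 : (63 / 50 : ℝ) ^ A.card * (1 - (50 / 63 : ℝ) ^ 2) ≤ Y {e} A := by
            rw [h170_Y_one (hR e he), he2]
          have h2 := h170_step hun _ _ (by norm_num) h1 ihR (by positivity)
          refine le_trans ?_ h2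
          refine mul_le_mul_of_nonneg_left ?_ (by positivity)
          rw [hc1, hn, h4]
          have heI := hall e he he2
          have h5 : (h170I R).card = ((h170I R).erase e).card + 1 := by
            rw [Finset.card_erase_of_mem heI]
            have : 0 < (h170I R).card := Finset.card_pos.2 ⟨e, heI⟩
            omega
          have h6 : θ ^ (h170I R).card ≤ θ * θ ^ (h170I (R.erase e)).card := by
            rw [← pow_succ']
            exact pow_le_pow_of_le_one hθ0.le hθ1 (by omega)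
          have h7 : (51 / 125 : ℝ) * θ = 1 - (50 / 63 : ℝ) ^ 2 := by rw [hθ]; norm_num
          calc (51 / 125 : ℝ) * (51 / 125 : ℝ) ^ (n - 1) * θ ^ (h170I R).card
              ≤ (51 / 125 : ℝ) * (51 / 125 : ℝ) ^ (n - 1) * (θ * θ ^ (h170I (R.erase e)).card) :=
                mul_le_mul_of_nonneg_left h6 (by positivity)
            _ = ((51 / 125 : ℝ) * θ) * ((51 / 125 : ℝ) ^ (n - 1) * θ ^ (h170I (R.erase e)).card) := by ring
            _ = _ := by rw [h7]
        · have h1 : (63 / 50 : ℝ) ^ A.card * (1 - (50 / 63 : ℝ) ^ 3) ≤ Y {e} A := by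
            rw [h170_Y_one (hR e he), he3]
          have h2 := h170_step hun _ _ (by norm_num) h1 ihR (by positivity)
          refine le_trans ?_ h2
          refine mul_le_mul_of_nonneg_left ?_ (by positivity)
          rw [hc1, hn, h4, mul_assoc]
          have h5 : ((h170I R).erase e).card ≤ (h170I R).card := Finset.card_le_card (Finset.erase_subset _ _)
          have h6 : θ ^ (h170I R).card ≤ θ ^ (h170I (R.erase e)).card :=
            pow_le_pow_of_le_one hθ0.le hθ1 (by omega)
          refine mul_le_mul (by norm_num) (mul_le_mul_of_nonneg_left h6 hp1) (by positivity) (by norm_num)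

/-- Structural lower bound. Edges have size two or three, and no member of size two is isolated
(disjoint from all other members). -/
theorem Y_lower {R : Finset (Finset α)} {A : Finset α} (hR : ∀ e ∈ R, e ⊆ A)
    (hcard : ∀ e ∈ R, e.card = 2 ∨ e.card = 3)
    (hiso : ∀ e ∈ R, e.card = 2 → ∃ f ∈ R, f ≠ e ∧ ¬ Disjoint e f) :
    (63 / 50 : ℝ) ^ A.card * (51 / 125 : ℝ) ^ R.card ≤ Y R A := by
  have h := h170_main A R.card R rfl hR hcard
  have hI : (h170I R).card = 0 := by
    rw [Finset.card_eq_zero]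
    unfold h170I
    rw [Finset.filter_eq_empty_iff]
    rintro e he ⟨he2, hall⟩
    obtain ⟨f, hf, hfe, hd⟩ := hiso e he he2
    exact hd (hall f hf hfe)
  rw [hI, pow_zero, mul_one] at h
  exact h

/-- TARGET 1 -/
theorem z_ge_Y (R : Finset (Finset α)) (A : Finset α) (t : ℕ) :
    (50 / 13 : ℝ) ^ t * Y R A - 2 ^ A.card ≤ z R A t := by
  have hsplit : Y R A = ∑ X ∈ (hit R A).filter (fun X => X.card ≤ t), (13 / 50 : ℝ) ^ X.card
      + ∑ X ∈ (hit R A).filter (fun X => ¬ X.card ≤ t), (13 / 50 : ℝ) ^ X.card := by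
    unfold Y
    exact (Finset.sum_filter_add_sum_filter_not _ _ _).symm
  have h1 : (50 / 13 : ℝ) ^ t * ∑ X ∈ (hit R A).filter (fun X => X.card ≤ t),
      (13 / 50 : ℝ) ^ X.card = z R A t := by
    unfold z
    rw [Finset.mul_sum]
    refine Finset.sum_congr rfl ?_
    intro X hX
    have hXt : X.card ≤ t := (Finset.mem_filter.mp hX).2
    have e1 : (50 / 13 : ℝ) ^ t = (50 / 13 : ℝ) ^ (t - X.card) * (50 / 13 : ℝ) ^ X.card := by
      rw [← pow_add, Nat.sub_add_cancel hXt]
    rw [e1, mul_assoc, ← mul_pow]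
    norm_num
  have h2 : (50 / 13 : ℝ) ^ t * ∑ X ∈ (hit R A).filter (fun X => ¬ X.card ≤ t),
      (13 / 50 : ℝ) ^ X.card ≤ 2 ^ A.card := by
    rw [Finset.mul_sum]
    calc ∑ X ∈ (hit R A).filter (fun X => ¬ X.card ≤ t), (50 / 13 : ℝ) ^ t * (13 / 50 : ℝ) ^ X.card
        ≤ ∑ X ∈ (hit R A).filter (fun X => ¬ X.card ≤ t), (1 : ℝ) := by
          refine Finset.sum_le_sum ?_
          intro X hX
          have hXt : ¬ X.card ≤ t := (Finset.mem_filter.mp hX).2
          have hle : t ≤ X.card := by omega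
          have e1 : (13 / 50 : ℝ) ^ X.card = (13 / 50 : ℝ) ^ t * (13 / 50 : ℝ) ^ (X.card - t) := by
            rw [← pow_add, Nat.add_sub_cancel' hle]
          rw [e1, ← mul_assoc, ← mul_pow]
          have e2 : (50 / 13 : ℝ) * (13 / 50) = 1 := by norm_num
          rw [e2, one_pow, one_mul]
          exact pow_le_one₀ (by norm_num) (by norm_num)
      _ = (((hit R A).filter (fun X => ¬ X.card ≤ t)).card : ℝ) := by simp
      _ ≤ ((A.powerset).card : ℝ) := by
          exact_mod_cast Finset.card_le_card ((Finset.filter_subset _ _).trans (Finset.filter_subset _ _))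
      _ = 2 ^ A.card := by rw [Finset.card_powerset]; push_cast; rfl
  rw [hsplit, mul_add, h1]
  linarith

/-- TARGET 2 -/
theorem lemmaA {R : Finset (Finset α)} {A : Finset α} {t n D0 : ℕ} {Λ : ℝ}
    (hR : ∀ e ∈ R, e ⊆ A)
    (hcard : ∀ e ∈ R, e.card = 2 ∨ e.card = 3)
    (hiso : ∀ e ∈ R, e.card = 2 → ∃ f ∈ R, f ≠ e ∧ ¬ Disjoint e f)
    (hA : A.card ≤ n) (hD : 6 ≤ D0) (ht : A.card + 2 * R.card + D0 ≤ 3 * t + 6) (hΛ : 0 ≤ Λ)
    (hnum : (8 : ℝ) ^ n * (2 * Λ + 1) ^ 3 ≤ (50 / 13 : ℝ) ^ (n + D0 - 6) * (63 / 50 : ℝ) ^ (3 * n)) :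
    2 ^ A.card * (2 * Λ) ≤ z R A t := by
  have hz := z_ge_Y R A t
  have hY := Y_lower hR hcard hiso
  have hq0 : (0 : ℝ) < (50 / 13 : ℝ) ^ t := by positivity
  have hqY : (50 / 13 : ℝ) ^ t * ((63 / 50 : ℝ) ^ A.card * (51 / 125 : ℝ) ^ R.card)
      ≤ (50 / 13 : ℝ) ^ t * Y R A := mul_le_mul_of_nonneg_left hY hq0.le
  have key : (2 : ℝ) ^ A.card * (2 * Λ + 1)
      ≤ (50 / 13 : ℝ) ^ t * ((63 / 50 : ℝ) ^ A.card * (51 / 125 : ℝ) ^ R.card) := by
    have hL0 : (0 : ℝ) ≤ (50 / 13 : ℝ) ^ t * ((63 / 50 : ℝ) ^ A.card * (51 / 125 : ℝ) ^ R.card) := by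
      positivity
    refine le_of_pow_le_pow_left₀ (n := 3) (by norm_num) hL0 ?_
    obtain ⟨m, hm⟩ := Nat.exists_eq_add_of_le hA
    obtain ⟨d, hd⟩ := Nat.exists_eq_add_of_le hD
    generalize A.card = a at *
    generalize R.card = e at *
    subst hm hd
    have hexp : a + m + (6 + d) - 6 = a + d + m := by omega
    rw [hexp] at hnum
    have h8m : (0 : ℝ) < 8 ^ m := by positivity
    -- step 1
    have hΛ1 : (0 : ℝ) ≤ (2 * Λ + 1) ^ 3 := by positivity
    have s1 : (8 : ℝ) ^ a * (2 * Λ + 1) ^ 3 ≤ (50 / 13 : ℝ) ^ (a + d) * (63 / 50 : ℝ) ^ (3 * a) := by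
      have hm8 : ((50 / 13 : ℝ) * (63 / 50) ^ 3) ^ m ≤ 8 ^ m :=
        pow_le_pow_left₀ (by norm_num) (by norm_num) m
      have e3 : (50 / 13 : ℝ) ^ (a + d + m) * (63 / 50 : ℝ) ^ (3 * (a + m))
          = ((50 / 13 : ℝ) ^ (a + d) * (63 / 50 : ℝ) ^ (3 * a)) * ((50 / 13 : ℝ) * (63 / 50) ^ 3) ^ m := by
        rw [mul_pow, ← pow_mul, pow_add, mul_add, pow_add (63 / 50 : ℝ)]
        ring
      rw [e3] at hnum
      have hpos : (0 : ℝ) ≤ (50 / 13 : ℝ) ^ (a + d) * (63 / 50 : ℝ) ^ (3 * a) := by positivity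
      have h4 : (8 : ℝ) ^ (a + m) * (2 * Λ + 1) ^ 3
          ≤ ((50 / 13 : ℝ) ^ (a + d) * (63 / 50 : ℝ) ^ (3 * a)) * 8 ^ m :=
        hnum.trans (mul_le_mul_of_nonneg_left hm8 hpos)
      have h5 : ((8 : ℝ) ^ a * (2 * Λ + 1) ^ 3) * 8 ^ m
          ≤ ((50 / 13 : ℝ) ^ (a + d) * (63 / 50 : ℝ) ^ (3 * a)) * 8 ^ m := by
        calc ((8 : ℝ) ^ a * (2 * Λ + 1) ^ 3) * 8 ^ m = (8 : ℝ) ^ (a + m) * (2 * Λ + 1) ^ 3 := by
              rw [pow_add]; ring
          _ ≤ _ := h4
      exact le_of_mul_le_mul_right h5 h8m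
    have s2 : (50 / 13 : ℝ) ^ (a + d) * (50 / 13 : ℝ) ^ (2 * e) ≤ (50 / 13 : ℝ) ^ (3 * t) := by
      rw [← pow_add]
      exact pow_le_pow_right₀ (by norm_num) (by omega)
    have s3 : (1 : ℝ) ≤ ((50 / 13 : ℝ) ^ 2 * (51 / 125) ^ 3) ^ e :=
      one_le_pow₀ (by norm_num)
    calc ((2 : ℝ) ^ a * (2 * Λ + 1)) ^ 3 = 8 ^ a * (2 * Λ + 1) ^ 3 := by
          rw [mul_pow, ← pow_mul, mul_comm a 3, pow_mul]; norm_num
      _ ≤ (50 / 13 : ℝ) ^ (a + d) * (63 / 50 : ℝ) ^ (3 * a) := s1
      _ ≤ (50 / 13 : ℝ) ^ (a + d) * (63 / 50 : ℝ) ^ (3 * a) * ((50 / 13 : ℝ) ^ 2 * (51 / 125) ^ 3) ^ e :=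
          le_mul_of_one_le_right (by positivity) s3
      _ = ((50 / 13 : ℝ) ^ (a + d) * (50 / 13 : ℝ) ^ (2 * e)) * ((63 / 50 : ℝ) ^ (3 * a) * (51 / 125) ^ (3 * e)) := by
          rw [mul_pow, ← pow_mul, ← pow_mul]; ring
      _ ≤ (50 / 13 : ℝ) ^ (3 * t) * ((63 / 50 : ℝ) ^ (3 * a) * (51 / 125) ^ (3 * e)) :=
          mul_le_mul_of_nonneg_right s2 (by positivity)
      _ = ((50 / 13 : ℝ) ^ t * ((63 / 50 : ℝ) ^ a * (51 / 125 : ℝ) ^ e)) ^ 3 := by
          rw [mul_pow, mul_pow, ← pow_mul, ← pow_mul, ← pow_mul, mul_comm t 3, mul_comm a 3, mul_comm e 3]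
  nlinarith [key, hz, hqY]

/-- reduction of the numerical inequality -/
theorem num_red (n D0 : ℕ) (h6 : 6 ≤ D0)
    (h : (4 * (n : ℝ) + 1) ^ 3 * (50 / 13 : ℝ) ^ 6 ≤ (250047 / 260000 : ℝ) ^ n * (50 / 13 : ℝ) ^ D0) :
    (8 : ℝ) ^ n * (2 * (2 * (n : ℝ)) + 1) ^ 3 ≤
      (50 / 13 : ℝ) ^ (n + D0 - 6) * (63 / 50 : ℝ) ^ (3 * n) := by
  obtain ⟨d, rfl⟩ := Nat.exists_eq_add_of_le h6
  have e0 : n + (6 + d) - 6 = n + d := by omega
  rw [e0]
  have e1 : (50 / 13 : ℝ) ^ (6 + d) = (50 / 13 : ℝ) ^ d * (50 / 13 : ℝ) ^ 6 := by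
    rw [add_comm, pow_add]
  rw [e1, ← mul_assoc] at h
  have h2 : (4 * (n : ℝ) + 1) ^ 3 ≤ (250047 / 260000 : ℝ) ^ n * (50 / 13 : ℝ) ^ d :=
    le_of_mul_le_mul_right h (by positivity)
  have h8 : (0 : ℝ) < 8 ^ n := by positivity
  have h3 := mul_le_mul_of_nonneg_left h2 h8.le
  have e2 : (8 : ℝ) ^ n * ((250047 / 260000 : ℝ) ^ n * (50 / 13 : ℝ) ^ d)
      = (50 / 13 : ℝ) ^ (n + d) * (63 / 50 : ℝ) ^ (3 * n) := by
    rw [← mul_assoc, ← mul_pow, pow_add, pow_mul (63 / 50 : ℝ) 3 n]
    have : (8 : ℝ) * (250047 / 260000) = (50 / 13) * (63 / 50) ^ 3 := by norm_num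
    rw [this, mul_pow]
    ring
  rw [e2] at h3
  have e3 : (2 * (2 * (n : ℝ)) + 1) = 4 * (n : ℝ) + 1 := by ring
  rw [e3]
  exact h3

/-- TARGET 1: asymptotic numerical inequality. -/
theorem num_eventually : ∃ n₀ : ℕ, ∀ n D0 : ℕ, n₀ ≤ n → 17 * n ≤ 583 * D0 → 6 ≤ D0 ∧
    (8 : ℝ) ^ n * (2 * (2 * (n : ℝ)) + 1) ^ 3 ≤
      (50 / 13 : ℝ) ^ (n + D0 - 6) * (63 / 50 : ℝ) ^ (3 * n) := by
  obtain ⟨r, hr1, hr2⟩ : ∃ r : ℝ, 1 < r ∧
      r ≤ ((250047 / 260000 : ℝ) ^ 53) ^ 11 * (50 / 13 : ℝ) ^ 17 := by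
    refine ⟨(126 / 1000 : ℝ) ^ 11 * (50 / 13 : ℝ) ^ 17, by norm_num, ?_⟩
    refine mul_le_mul_of_nonneg_right ?_ (by positivity)
    refine pow_le_pow_left₀ (by norm_num) ?_ 11
    norm_num
  obtain ⟨C, hC0, hC⟩ : ∃ C : ℝ, 0 < C ∧ C = (5 ^ 3 * (50 / 13 : ℝ) ^ 6) ^ 583 := ⟨_, by positivity, rfl⟩
  have ht := (tendsto_pow_const_div_const_pow_of_one_lt (3 * 583) hr1).const_mul C
  rw [mul_zero] at ht
  have hev := (ht.eventually (gt_mem_nhds (show (0 : ℝ) < 1 by norm_num)))
  obtain ⟨n₁, hn₁⟩ := Filter.eventually_atTop.mp hev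
  refine ⟨max n₁ 200, ?_⟩
  intro n D0 hn hD
  have hn1 : n₁ ≤ n := (le_max_left _ _).trans hn
  have hn2 : 200 ≤ n := (le_max_right _ _).trans hn
  have h6 : 6 ≤ D0 := by omega
  refine ⟨h6, num_red n D0 h6 ?_⟩
  have h583 : (583 : ℕ) ≠ 0 := by norm_num
  refine le_of_pow_le_pow_left₀ h583 (by positivity) ?_
  have hlt := hn₁ n hn1
  have hrn : 0 < r ^ n := by positivity
  have h1 : C * (n : ℝ) ^ (3 * 583) ≤ r ^ n := by
    have : C * ((n : ℝ) ^ (3 * 583) / r ^ n) * r ^ n = C * (n : ℝ) ^ (3 * 583) := by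
      field_simp
    rw [← this]
    calc C * ((n : ℝ) ^ (3 * 583) / r ^ n) * r ^ n ≤ 1 * r ^ n :=
          mul_le_mul_of_nonneg_right hlt.le hrn.le
      _ = r ^ n := one_mul _
  have hn' : (200 : ℝ) ≤ n := by exact_mod_cast hn2
  calc ((4 * (n : ℝ) + 1) ^ 3 * (50 / 13 : ℝ) ^ 6) ^ 583
      ≤ ((5 * (n : ℝ)) ^ 3 * (50 / 13 : ℝ) ^ 6) ^ 583 := by
        refine pow_le_pow_left₀ (by positivity) ?_ 583
        refine mul_le_mul_of_nonneg_right ?_ (by positivity)
        exact pow_le_pow_left₀ (by positivity) (by linarith) 3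
    _ = C * (n : ℝ) ^ (3 * 583) := by
        rw [hC, pow_mul (n : ℝ) 3 583, ← mul_pow, mul_pow 5 (n : ℝ) 3]
        congr 1
        ring
    _ ≤ r ^ n := h1
    _ ≤ (((250047 / 260000 : ℝ) ^ 53) ^ 11 * (50 / 13 : ℝ) ^ 17) ^ n :=
        pow_le_pow_left₀ (by linarith) hr2 n
    _ = ((250047 / 260000 : ℝ) ^ n) ^ 583 * (50 / 13 : ℝ) ^ (17 * n) := by
        rw [mul_pow, ← pow_mul, ← pow_mul, ← pow_mul, ← pow_mul]
        congr 2
        ring
    _ ≤ ((250047 / 260000 : ℝ) ^ n) ^ 583 * (50 / 13 : ℝ) ^ (583 * D0) := by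
        refine mul_le_mul_of_nonneg_left ?_ (by positivity)
        exact pow_le_pow_right₀ (by norm_num) hD
    _ = ((250047 / 260000 : ℝ) ^ n * (50 / 13 : ℝ) ^ D0) ^ 583 := by
        rw [mul_pow, ← pow_mul (50 / 13 : ℝ) D0 583, mul_comm D0 583]

/-- growth lemma -/
theorem num_growth (K : ℕ) (c : ℝ) (D₁ : ℕ) (hD₁ : 37 ≤ D₁) (hc : (111 / 100 : ℝ) ≤ c)
    (hbase : (4 * ((K : ℝ) * D₁) + 1) ^ 3 * (50 / 13 : ℝ) ^ 6 ≤ c ^ D₁) (hK : 1 ≤ K) :
    ∀ D : ℕ, D₁ ≤ D → (4 * ((K : ℝ) * D) + 1) ^ 3 * (50 / 13 : ℝ) ^ 6 ≤ c ^ D := by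
  intro D hD
  induction D, hD using Nat.le_induction with
  | base => exact hbase
  | succ D hD ih =>
    have hD' : (37 : ℝ) ≤ D := by exact_mod_cast hD₁.trans hD
    have hK' : (1 : ℝ) ≤ K := by exact_mod_cast hK
    have h1 : (4 * ((K : ℝ) * ((D + 1 : ℕ) : ℝ)) + 1) ≤ (38 / 37) * (4 * ((K : ℝ) * D) + 1) := by
      push_cast
      have : (37 : ℝ) * K ≤ K * D := by nlinarith
      nlinarith
    have h2 : (4 * ((K : ℝ) * ((D + 1 : ℕ) : ℝ)) + 1) ^ 3
        ≤ ((38 / 37) * (4 * ((K : ℝ) * D) + 1)) ^ 3 :=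
      pow_le_pow_left₀ (by positivity) h1 3
    calc (4 * ((K : ℝ) * ((D + 1 : ℕ) : ℝ)) + 1) ^ 3 * (50 / 13 : ℝ) ^ 6
        ≤ ((38 / 37) * (4 * ((K : ℝ) * D) + 1)) ^ 3 * (50 / 13 : ℝ) ^ 6 :=
          mul_le_mul_of_nonneg_right h2 (by positivity)
      _ = (38 / 37 : ℝ) ^ 3 * ((4 * ((K : ℝ) * D) + 1) ^ 3 * (50 / 13 : ℝ) ^ 6) := by ring
      _ ≤ (111 / 100 : ℝ) * ((4 * ((K : ℝ) * D) + 1) ^ 3 * (50 / 13 : ℝ) ^ 6) :=
          mul_le_mul_of_nonneg_right (by norm_num) (by positivity)
      _ ≤ c * c ^ D := mul_le_mul hc ih (by positivity) (by linarith)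
      _ = c ^ (D + 1) := by rw [pow_succ]; ring

/-- the two explicit inequalities -/
theorem num_expl_aux (K : ℕ) (c : ℝ) (D₁ : ℕ) (hD₁ : 37 ≤ D₁) (hc : (111 / 100 : ℝ) ≤ c)
    (hbase : (4 * ((K : ℝ) * D₁) + 1) ^ 3 * (50 / 13 : ℝ) ^ 6 ≤ c ^ D₁) (hK : 1 ≤ K)
    (hcK : c ≤ (250047 / 260000 : ℝ) ^ K * (50 / 13 : ℝ)) (n D : ℕ) (hn : n ≤ K * D) (hD : D₁ ≤ D) :
    (4 * (n : ℝ) + 1) ^ 3 * (50 / 13 : ℝ) ^ 6 ≤ (250047 / 260000 : ℝ) ^ n * (50 / 13 : ℝ) ^ D := by
  have hn' : (n : ℝ) ≤ (K : ℝ) * D := by exact_mod_cast hn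
  calc (4 * (n : ℝ) + 1) ^ 3 * (50 / 13 : ℝ) ^ 6
      ≤ (4 * ((K : ℝ) * D) + 1) ^ 3 * (50 / 13 : ℝ) ^ 6 := by
        refine mul_le_mul_of_nonneg_right ?_ (by positivity)
        exact pow_le_pow_left₀ (by positivity) (by linarith) 3
    _ ≤ c ^ D := num_growth K c D₁ hD₁ hc hbase hK D hD
    _ ≤ ((250047 / 260000 : ℝ) ^ K * (50 / 13 : ℝ)) ^ D := pow_le_pow_left₀ (by linarith) hcK D
    _ = (250047 / 260000 : ℝ) ^ (K * D) * (50 / 13 : ℝ) ^ D := by rw [mul_pow, ← pow_mul]
    _ ≤ (250047 / 260000 : ℝ) ^ n * (50 / 13 : ℝ) ^ D := by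
        refine mul_le_mul_of_nonneg_right ?_ (by positivity)
        exact pow_le_pow_of_le_one (by norm_num) (by norm_num) hn

/-- TARGET 2: explicit numerical inequality for the ratio 29/10. -/
theorem num_explicit : ∀ n D0 : ℕ, 5500 ≤ n → n ≤ 29 * D0 → 6 ≤ D0 ∧
    (8 : ℝ) ^ n * (2 * (2 * (n : ℝ)) + 1) ^ 3 ≤
      (50 / 13 : ℝ) ^ (n + D0 - 6) * (63 / 50 : ℝ) ^ (3 * n) := by
  intro n D0 hn hD
  have h190 : 190 ≤ D0 := by omega
  have h6 : 6 ≤ D0 := by omega
  refine ⟨h6, num_red n D0 h6 ?_⟩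
  exact num_expl_aux 29 (123 / 100) 190 (by norm_num) (by norm_num) (by norm_num) (by norm_num)
    (by norm_num) n D0 hD h190

/-- TARGET 3: explicit numerical inequality for the ratio 11/4. -/
theorem num_explicit' : ∀ n D0 : ℕ, 400 ≤ n → n ≤ 11 * D0 → 6 ≤ D0 ∧
    (8 : ℝ) ^ n * (2 * (2 * (n : ℝ)) + 1) ^ 3 ≤
      (50 / 13 : ℝ) ^ (n + D0 - 6) * (63 / 50 : ℝ) ^ (3 * n) := by
  intro n D0 hn hD
  have h190 : 37 ≤ D0 := by omega
  have h6 : 6 ≤ D0 := by omega
  refine ⟨h6, num_red n D0 h6 ?_⟩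
  exact num_expl_aux 11 (12 / 5) 37 (by norm_num) (by norm_num) (by norm_num) (by norm_num)
    (by norm_num) n D0 hD h190

theorem L_empty' : ∀ k : ℕ, ¬ L k (∅ : Set (Finset α))
  | 0 => by
    rintro ⟨D, hD, _⟩
    exact hD
  | k + 1 => by
    intro h
    rcases h ∅ with h | h
    · have : ({D | D ∈ (∅ : Set (Finset α)) ∧ ((∅ : Finset α) ∩ D).Nonempty} : Set (Finset α)) = ∅ := by
        ext D
        simp
      rw [this] at h
      exact L_empty' k h
    · have : ({D | D ∈ (∅ : Set (Finset α)) ∧ ¬ ((∅ : Finset α) ∩ D).Nonempty} : Set (Finset α)) = ∅ := by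
        ext D
        simp
      rw [this] at h
      exact L_empty' k h

theorem L_succ {k : ℕ} {F : Set (Finset α)} (h : L (k + 1) F) : L k F := by
  rcases h ∅ with h | h
  · have : ({D | D ∈ F ∧ ((∅ : Finset α) ∩ D).Nonempty} : Set (Finset α)) = ∅ := by
      ext D
      simp
    rw [this] at h
    exact absurd h (L_empty' k)
  · have : ({D | D ∈ F ∧ ¬ ((∅ : Finset α) ∩ D).Nonempty} : Set (Finset α)) = F := by
      ext D
      simp
    rw [this] at h
    exact h

theorem L_le_of_le {k l : ℕ} (hkl : k ≤ l) {F : Set (Finset α)} (h : L l F) : L k F := by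
  induction l, hkl using Nat.le_induction with
  | base => exact h
  | succ l _ ih => exact ih (L_succ h)

theorem L_main : ∀ (k : ℕ) (F : Set (Finset α)), L k F →
    ∀ f : (Fin k → Bool) → Fin k → Finset α,
      (∀ h h' : Fin k → Bool, ∀ i : Fin k,
        (∀ j : Fin k, j < i → h j = h' j) → f h i = f h' i) →
      ∃ (t : Fin k → Bool) (D D' : Finset α), D ∈ F ∧ D' ∈ F ∧ D ≠ D' ∧
        (∀ i : Fin k, t i = decide ((f t i ∩ D).Nonempty)) ∧
        (∀ i : Fin k, t i = decide ((f t i ∩ D').Nonempty))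
  | 0, F, hF, f, _ => by
    obtain ⟨D, hD, D', hD', hne⟩ := hF
    exact ⟨Fin.elim0, D, D', hD, hD', hne, fun i => i.elim0, fun i => i.elim0⟩
  | k + 1, F, hF, f, hf => by
    have key : ∀ (b : Bool) (F' : Set (Finset α)), F' ⊆ F →
        (∀ D ∈ F', b = decide ((f (fun _ => false) 0 ∩ D).Nonempty)) → L k F' →
        ∃ (t : Fin (k + 1) → Bool) (D D' : Finset α), D ∈ F ∧ D' ∈ F ∧ D ≠ D' ∧
          (∀ i : Fin (k + 1), t i = decide ((f t i ∩ D).Nonempty)) ∧
          (∀ i : Fin (k + 1), t i = decide ((f t i ∩ D').Nonempty)) := by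
      intro b F' hsub hb hL
      obtain ⟨t', D, D', hD, hD', hne, h1, h2⟩ := L_main k F' hL
        (fun h i => f (Fin.cons b h : Fin (k + 1) → Bool) i.succ) (by
          intro h h' i hi
          refine hf _ _ _ fun j hj => ?_
          refine Fin.cases ?_ (fun j' hj' => ?_) j hj
          · intro _
            simp
          · simp only [Fin.cons_succ]
            exact hi j' (Fin.succ_lt_succ_iff.mp hj'))
      have h0 : f (Fin.cons b t' : Fin (k + 1) → Bool) 0 = f (fun _ => false) 0 :=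
        hf _ _ _ fun j hj => absurd hj (Fin.not_lt_zero j)
      refine ⟨(Fin.cons b t' : Fin (k + 1) → Bool), D, D', hsub hD, hsub hD', hne, ?_, ?_⟩
      · intro i
        refine Fin.cases ?_ (fun i' => ?_) i
        · rw [h0, Fin.cons_zero]
          exact hb D hD
        · rw [Fin.cons_succ]
          exact h1 i'
      · intro i
        refine Fin.cases ?_ (fun i' => ?_) i
        · rw [h0, Fin.cons_zero]
          exact hb D' hD'
        · rw [Fin.cons_succ]
          exact h2 i'
    rcases hF (f (fun _ => false) 0) with h | h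
    · exact key true _ (fun D hD => hD.1) (fun D hD => (decide_eq_true hD.2).symm) h
    · exact key false _ (fun D hD => hD.1) (fun D hD => (decide_eq_false hD.2).symm) h

/-- TARGET: from the adversary predicate to the exact value of the minimax number of tests. -/
theorem sInf_eq_of_L {d n : ℕ} (hd : 0 < d) (hdn : d < n)
    (h : L (n - 2) {D : Finset (Fin n) | D.card = d}) :
    sInf {k : ℕ | ∃ f : (Fin k → Bool) → Fin k → Finset (Fin n),
        (∀ h h' : Fin k → Bool, ∀ i : Fin k,
            (∀ j : Fin k, j < i → h j = h' j) → f h i = f h' i) ∧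
        ∀ D D' : Finset (Fin n), D.card = d → D'.card = d →
          ∀ t : Fin k → Bool,
            (∀ i : Fin k, t i = decide ((f t i ∩ D).Nonempty)) →
            (∀ i : Fin k, t i = decide ((f t i ∩ D').Nonempty)) →
            D = D'} = n - 1 := by
  set A := {k : ℕ | ∃ f : (Fin k → Bool) → Fin k → Finset (Fin n),
        (∀ h h' : Fin k → Bool, ∀ i : Fin k,
            (∀ j : Fin k, j < i → h j = h' j) → f h i = f h' i) ∧
        ∀ D D' : Finset (Fin n), D.card = d → D'.card = d →
          ∀ t : Fin k → Bool,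
            (∀ i : Fin k, t i = decide ((f t i ∩ D).Nonempty)) →
            (∀ i : Fin k, t i = decide ((f t i ∩ D').Nonempty)) →
            D = D'} with hA
  have hmem : n - 1 ∈ A := by
    refine ⟨fun _ i => {(⟨i.1, by omega⟩ : Fin n)}, fun _ _ _ _ => rfl, ?_⟩
    intro D D' hD hD' t h1 h2
    have hiff : ∀ x : Fin n, x.1 < n - 1 → (x ∈ D ↔ x ∈ D') := by
      intro x hx
      have h3 := (h1 ⟨x.1, hx⟩).symm.trans (h2 ⟨x.1, hx⟩)
      have h4 : (({x} : Finset (Fin n)) ∩ D).Nonempty ↔ (({x} : Finset (Fin n)) ∩ D').Nonempty :=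
        decide_eq_decide.mp h3
      have h5 : ∀ E : Finset (Fin n), (({x} : Finset (Fin n)) ∩ E).Nonempty ↔ x ∈ E := by
        intro E
        constructor
        · rintro ⟨y, hy⟩
          rw [Finset.mem_inter, Finset.mem_singleton] at hy
          rw [← hy.1]
          exact hy.2
        · intro hx
          exact ⟨x, by simp [hx]⟩
      rw [h5, h5] at h4
      exact h4
    let l : Fin n := ⟨n - 1, by omega⟩
    have herase : D.erase l = D'.erase l := by
      ext x
      simp only [Finset.mem_erase]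
      refine and_congr_right fun hx => ?_
      refine hiff x ?_
      have h6 : x.1 ≠ n - 1 := fun h => hx (Fin.ext h)
      have := x.2
      omega
    have hl : l ∈ D ↔ l ∈ D' := by
      have h7 := Finset.card_erase_add_one (s := D) (a := l)
      have h8 := Finset.card_erase_add_one (s := D') (a := l)
      constructor
      · intro h9
        by_contra h10
        have h11 := h7 h9
        rw [herase, Finset.erase_eq_of_notMem h10] at h11
        omega
      · intro h9
        by_contra h10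
        have h11 := h8 h9
        rw [← herase, Finset.erase_eq_of_notMem h10] at h11
        omega
    ext x
    by_cases hx : x = l
    · rw [hx]
      exact hl
    · refine hiff x ?_
      have h6 : x.1 ≠ n - 1 := fun h => hx (Fin.ext h)
      have := x.2
      omega
  refine le_antisymm (Nat.sInf_le hmem) ?_
  by_contra hlt
  push Not at hlt
  have hs : sInf A ∈ A := Nat.sInf_mem ⟨_, hmem⟩
  obtain ⟨f, hf, hdet⟩ := hs
  have hL : L (sInf A) {D : Finset (Fin n) | D.card = d} := L_le_of_le (by omega) h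
  obtain ⟨t, D, D', hD, hD', hne, h1, h2⟩ := L_main _ _ hL f hf
  exact hne (hdet D D' hD hD' t h1 h2)


/-! ### Operations on states -/

section Ops

variable {B A C : Finset α} {π : α → α} {R : Finset (Finset α)}

theorem St.bad (h : St B A C π R) {v : α} (hv : v ∈ A) (hvC : ∀ c ∈ C, π c ≠ v) :
    St (insert v B) (A.erase v) C π (R.filter (fun e => v ∉ e)) where
  hBA := by
    rw [Finset.disjoint_insert_left]
    exact ⟨Finset.notMem_erase v A, h.hBA.mono_right (Finset.erase_subset _ _)⟩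
  hBC := by
    rw [Finset.disjoint_insert_left]
    exact ⟨fun hc => (Finset.disjoint_left.1 h.hAC) hv hc, h.hBC⟩
  hAC := h.hAC.mono_left (Finset.erase_subset _ _)
  hπ := fun c hc => Finset.mem_erase.2 ⟨hvC c hc, h.hπ c hc⟩
  hinj := h.hinj
  hR := fun e he => by
    rw [Finset.mem_filter] at he
    exact Finset.subset_erase.2 ⟨h.hR e he.1, he.2⟩
  hcard := fun e he => h.hcard e (Finset.mem_filter.1 he).1
  htok := fun c hc e he => h.htok c hc e (Finset.mem_filter.1 he).1

theorem Fam_bad (h : St B A C π R) {v : α} (hv : v ∈ A) (t : ℕ) :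
    Fam (insert v B) (A.erase v) C π (R.filter (fun e => v ∉ e)) t ⊆
      {D | D ∈ Fam B A C π R (t + 1) ∧ v ∈ D} := by
  intro D hD
  obtain ⟨h1, h2, h3, h4, h5⟩ := hD
  have hvD : v ∈ D := h1 (Finset.mem_insert_self _ _)
  have hvB : v ∉ B := fun hb => (Finset.disjoint_left.1 h.hBA) hb hv
  refine ⟨⟨(Finset.subset_insert _ _).trans h1, ?_, ?_, ?_, h5⟩, hvD⟩
  · intro x hx
    have := h2 hx
    simp only [Finset.mem_union, Finset.mem_insert, Finset.mem_erase] at this ⊢
    rcases this with ((h | hB) | hA) | hC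
    · subst h; tauto
    · tauto
    · tauto
    · tauto
  · rw [h3, Finset.card_insert_of_notMem hvB]; ring
  · intro e he
    by_cases hve : v ∈ e
    · exact ⟨v, Finset.mem_inter.2 ⟨hve, hvD⟩⟩
    · exact h4 e (Finset.mem_filter.2 ⟨he, hve⟩)

theorem St.touch (h : St B A C π R) {c : α} (hc : c ∈ C) :
    St (insert c B) A (C.erase c) π R where
  hBA := by
    rw [Finset.disjoint_insert_left]
    exact ⟨fun hA => (Finset.disjoint_left.1 h.hAC) hA hc, h.hBA⟩
  hBC := by
    rw [Finset.disjoint_insert_left]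
    exact ⟨Finset.notMem_erase _ _, h.hBC.mono_right (Finset.erase_subset _ _)⟩
  hAC := h.hAC.mono_right (Finset.erase_subset _ _)
  hπ := fun c' hc' => h.hπ c' (Finset.mem_of_mem_erase hc')
  hinj := h.hinj.mono (by exact_mod_cast Finset.erase_subset _ _)
  hR := h.hR
  hcard := h.hcard
  htok := fun c' hc' => h.htok c' (Finset.mem_of_mem_erase hc')

theorem St.reserve (h : St B A C π R) {x y : α} (hx : x ∈ A) (hy : y ∈ A) (hxy : x ≠ y)
    (hxR : ∀ e ∈ R, x ∉ e) (hyR : ∀ e ∈ R, y ∉ e) (hxC : ∀ c ∈ C, π c ≠ x)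
    (hyC : ∀ c ∈ C, π c ≠ y) :
    St B (A.erase x) (insert x C) (Function.update π x y) R := by
  have hxC' : x ∉ C := fun hc => (Finset.disjoint_left.1 h.hAC) hx hc
  have hne : ∀ c ∈ C, c ≠ x := fun c hc hcx => hxC' (hcx ▸ hc)
  refine ⟨h.hBA.mono_right (Finset.erase_subset _ _), ?_, ?_, ?_, ?_, ?_, h.hcard, ?_⟩
  · rw [Finset.disjoint_insert_right]
    exact ⟨fun hB => (Finset.disjoint_left.1 h.hBA) hB hx, h.hBC⟩
  · rw [Finset.disjoint_insert_right]
    exact ⟨Finset.notMem_erase _ _, h.hAC.mono_left (Finset.erase_subset _ _)⟩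
  · intro c hc
    rw [Finset.mem_insert] at hc
    rcases hc with rfl | hc
    · rw [Function.update_self]
      exact Finset.mem_erase.2 ⟨hxy.symm, hy⟩
    · rw [Function.update_of_ne (hne c hc)]
      exact Finset.mem_erase.2 ⟨hxC c hc, h.hπ c hc⟩
  · intro c hc c' hc' heq
    rw [Finset.mem_coe, Finset.mem_insert] at hc hc'
    rcases hc with rfl | hc <;> rcases hc' with rfl | hc'
    · rfl
    · rw [Function.update_self, Function.update_of_ne (hne c' hc')] at heq
      exact absurd heq.symm (hyC c' hc')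
    · rw [Function.update_self, Function.update_of_ne (hne c hc)] at heq
      exact absurd heq (hyC c hc)
    · rw [Function.update_of_ne (hne c hc), Function.update_of_ne (hne c' hc')] at heq
      exact h.hinj hc hc' heq
  · intro e he
    exact Finset.subset_erase.2 ⟨h.hR e he, hxR e he⟩
  · intro c hc e he
    rw [Finset.mem_insert] at hc
    rcases hc with rfl | hc
    · rw [Function.update_self]
      exact hyR e he
    · rw [Function.update_of_ne (hne c hc)]
      exact h.htok c hc e he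

theorem Fam_reserve (h : St B A C π R) {x y : α} (hx : x ∈ A) (t : ℕ) :
    Fam B (A.erase x) (insert x C) (Function.update π x y) R t ⊆
      {D | D ∈ Fam B A C π R (t + 1) ∧ (({x, y} : Finset α) ∩ D).Nonempty} := by
  intro D hD
  obtain ⟨h1, h2, h3, h4, h5⟩ := hD
  have hxC' : x ∉ C := fun hc => (Finset.disjoint_left.1 h.hAC) hx hc
  have hne : ∀ c ∈ C, c ≠ x := fun c hc hcx => hxC' (hcx ▸ hc)
  refine ⟨⟨h1, ?_, ?_, h4, ?_⟩, ?_⟩
  · intro a ha
    have := h2 ha
    simp only [Finset.mem_union, Finset.mem_insert, Finset.mem_erase] at this ⊢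
    rcases this with (hB | hA) | (rfl | hC)
    · tauto
    · tauto
    · tauto
    · tauto
  · rw [h3, Finset.card_insert_of_notMem hxC']; ring
  · intro c hc
    have := h5 c (Finset.mem_insert_of_mem hc)
    rwa [Function.update_of_ne (hne c hc)] at this
  · have := h5 x (Finset.mem_insert_self _ _)
    rw [Function.update_self] at this
    rcases this with hxD | hyD
    · exact ⟨x, by simp [hxD]⟩
    · exact ⟨y, by simp [hyD]⟩

theorem St.add (h : St B A C π R) {e : Finset α} (he : e ⊆ A)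
    (hcard : e.card = 2 ∨ e.card = 3) (htok : ∀ c ∈ C, π c ∉ e) : St B A C π (insert e R) where
  hBA := h.hBA
  hBC := h.hBC
  hAC := h.hAC
  hπ := h.hπ
  hinj := h.hinj
  hR := fun f hf => by
    rcases Finset.mem_insert.1 hf with rfl | hf
    · exact he
    · exact h.hR f hf
  hcard := fun f hf => by
    rcases Finset.mem_insert.1 hf with rfl | hf
    · exact hcard
    · exact h.hcard f hf
  htok := fun c hc f hf => by
    rcases Finset.mem_insert.1 hf with rfl | hf
    · exact htok c hc
    · exact h.htok c hc f hf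

theorem Fam_add (e : Finset α) (t : ℕ) :
    Fam B A C π (insert e R) t ⊆ {D | D ∈ Fam B A C π R t ∧ (e ∩ D).Nonempty} := by
  intro D hD
  obtain ⟨h1, h2, h3, h4, h5⟩ := hD
  exact ⟨⟨h1, h2, h3, fun f hf => h4 f (Finset.mem_insert_of_mem hf), h5⟩,
    h4 e (Finset.mem_insert_self _ _)⟩

theorem forced_sub {S U : Finset α} (h : St B A C π R)
    (hU : ∀ u, u ∈ U ↔ ∃ e ∈ R, e \ S = {u}) : U ⊆ A \ S := by
  intro u hu
  obtain ⟨e, he, heS⟩ := (hU u).1 hu
  have : u ∈ e \ S := by rw [heS]; exact Finset.mem_singleton_self _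
  rw [Finset.mem_sdiff] at this ⊢
  exact ⟨h.hR e he this.1, this.2⟩

theorem St.neg (h : St B A C π R) {S U : Finset α} (hSC : ∀ c ∈ C, π c ∉ S)
    (hSR : ∀ e ∈ R, ¬ e ⊆ S) (hU : ∀ u, u ∈ U ↔ ∃ e ∈ R, e \ S = {u}) :
    St (B ∪ U) (A \ (S ∪ U)) C π
      ((R.filter (fun e => Disjoint e U)).image (fun e => e \ S)) := by
  have hUA : U ⊆ A \ S := forced_sub h hU
  have hUA' : U ⊆ A := hUA.trans Finset.sdiff_subset
  have htU : ∀ c ∈ C, π c ∉ U := by
    intro c hc hcU
    obtain ⟨e, he, heS⟩ := (hU _).1 hcU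
    have : π c ∈ e \ S := by rw [heS]; exact Finset.mem_singleton_self _
    exact h.htok c hc e he (Finset.mem_sdiff.1 this).1
  refine ⟨?_, ?_, ?_, ?_, h.hinj, ?_, ?_, ?_⟩
  · rw [Finset.disjoint_union_left]
    refine ⟨h.hBA.mono_right Finset.sdiff_subset, ?_⟩
    exact (Finset.disjoint_sdiff (s := S ∪ U) (t := A)).mono_left Finset.subset_union_right
  · rw [Finset.disjoint_union_left]
    exact ⟨h.hBC, h.hAC.mono_left hUA'⟩
  · exact h.hAC.mono_left Finset.sdiff_subset
  · intro c hc
    rw [Finset.mem_sdiff, Finset.mem_union]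
    exact ⟨h.hπ c hc, fun hh => hh.elim (hSC c hc) (htU c hc)⟩
  · intro f hf
    rw [Finset.mem_image] at hf
    obtain ⟨e, he, rfl⟩ := hf
    rw [Finset.mem_filter] at he
    intro x hx
    rw [Finset.mem_sdiff] at hx
    rw [Finset.mem_sdiff, Finset.mem_union]
    exact ⟨h.hR e he.1 hx.1, fun hh => hh.elim hx.2 (Finset.disjoint_left.1 he.2 hx.1)⟩
  · intro f hf
    rw [Finset.mem_image] at hf
    obtain ⟨e, he, rfl⟩ := hf
    rw [Finset.mem_filter] at he
    have h3 : e.card ≤ 3 := by rcases h.hcard e he.1 with h2 | h2 <;> omega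
    have hle : (e \ S).card ≤ 3 := (Finset.card_le_card Finset.sdiff_subset).trans h3
    have h0 : (e \ S).card ≠ 0 := by
      rw [Ne, Finset.card_eq_zero, Finset.sdiff_eq_empty_iff_subset]
      exact hSR e he.1
    have h1 : (e \ S).card ≠ 1 := by
      intro h1
      obtain ⟨u, hu⟩ := Finset.card_eq_one.1 h1
      have huU : u ∈ U := (hU u).2 ⟨e, he.1, hu⟩
      have : u ∈ e \ S := by rw [hu]; exact Finset.mem_singleton_self _
      exact Finset.disjoint_left.1 he.2 (Finset.mem_sdiff.1 this).1 huU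
    omega
  · intro c hc f hf
    rw [Finset.mem_image] at hf
    obtain ⟨e, he, rfl⟩ := hf
    rw [Finset.mem_filter] at he
    intro hh
    exact h.htok c hc e he.1 (Finset.mem_sdiff.1 hh).1

theorem Fam_neg (h : St B A C π R) {S U : Finset α} (hS : S ⊆ A)
    (hU : ∀ u, u ∈ U ↔ ∃ e ∈ R, e \ S = {u}) {t : ℕ} (ht : U.card ≤ t) :
    Fam (B ∪ U) (A \ (S ∪ U)) C π
      ((R.filter (fun e => Disjoint e U)).image (fun e => e \ S)) (t - U.card) ⊆
      {D | D ∈ Fam B A C π R t ∧ ¬ (S ∩ D).Nonempty} := by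
  have hUA : U ⊆ A \ S := forced_sub h hU
  have hUA' : U ⊆ A := hUA.trans Finset.sdiff_subset
  intro D hD
  obtain ⟨h1, h2, h3, h4, h5⟩ := hD
  refine ⟨⟨Finset.subset_union_left.trans h1, ?_, ?_, ?_, h5⟩, ?_⟩
  · intro x hx
    have := h2 hx
    simp only [Finset.mem_union, Finset.mem_sdiff] at this ⊢
    rcases this with ((hB | hU') | hA) | hC
    · tauto
    · have := hUA' hU'; tauto
    · tauto
    · tauto
  · rw [h3, Finset.card_union_of_disjoint (h.hBA.mono_right hUA')]
    omega
  · intro e he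
    by_cases hd : Disjoint e U
    · obtain ⟨x, hx⟩ := h4 (e \ S) (Finset.mem_image.2 ⟨e, Finset.mem_filter.2 ⟨he, hd⟩, rfl⟩)
      rw [Finset.mem_inter, Finset.mem_sdiff] at hx
      exact ⟨x, Finset.mem_inter.2 ⟨hx.1.1, hx.2⟩⟩
    · rw [Finset.not_disjoint_iff] at hd
      obtain ⟨x, hxe, hxU⟩ := hd
      exact ⟨x, Finset.mem_inter.2 ⟨hxe, h1 (Finset.mem_union_right _ hxU)⟩⟩
  · rintro ⟨x, hx⟩
    rw [Finset.mem_inter] at hx
    have hxA : x ∈ A := hS hx.1
    have := h2 hx.2
    simp only [Finset.mem_union, Finset.mem_sdiff] at this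
    rcases this with ((hB | hU') | hA) | hC
    · exact Finset.disjoint_left.1 h.hBA hB hxA
    · exact (Finset.mem_sdiff.1 (hUA hU')).2 hx.1
    · exact hA.2 (Or.inl hx.1)
    · exact Finset.disjoint_left.1 h.hAC hxA hC

theorem card_R_neg (R : Finset (Finset α)) (S U : Finset α) :
    ((R.filter (fun e => Disjoint e U)).image (fun e => e \ S)).card +
      (R.filter (fun e => (e ∩ U).Nonempty)).card ≤ R.card := by
  have h1 := Finset.card_image_le (s := R.filter (fun e => Disjoint e U)) (f := fun e => e \ S)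
  have h2 : (R.filter (fun e => (e ∩ U).Nonempty)) = R.filter (fun e => ¬ Disjoint e U) := by
    apply Finset.filter_congr
    intro e _
    rw [Finset.not_disjoint_iff_nonempty_inter]
  have h3 := Finset.card_filter_add_card_filter_not (s := R) (fun e => Disjoint e U)
  rw [h2]
  omega

/-- The number of edges meeting `S` is at least the number of forced elements. -/
theorem card_forced_le {S U : Finset α} (hcard : ∀ e ∈ R, 2 ≤ e.card)
    (hU : ∀ u, u ∈ U ↔ ∃ e ∈ R, e \ S = {u}) :
    U.card ≤ (R.filter (fun e => (e ∩ S).Nonempty)).card := by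
  classical
  have hch : ∀ u : α, ∃ e : Finset α, u ∈ U → e ∈ R ∧ e \ S = {u} := by
    intro u
    by_cases hu : u ∈ U
    · obtain ⟨e, he, h⟩ := (hU u).1 hu
      exact ⟨e, fun _ => ⟨he, h⟩⟩
    · exact ⟨∅, fun h => absurd h hu⟩
  choose f hf using hch
  apply Finset.card_le_card_of_injOn f
  · intro u hu
    rw [Finset.mem_coe] at hu
    obtain ⟨h1, h2⟩ := hf u hu
    rw [Finset.mem_coe, Finset.mem_filter]
    refine ⟨h1, ?_⟩
    rw [Finset.nonempty_iff_ne_empty]
    intro hemp
    have h3 : (f u \ S).card = (f u).card := by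
      rw [Finset.card_sdiff, Finset.inter_comm, hemp]; simp
    rw [h2, Finset.card_singleton] at h3
    have := hcard _ h1
    omega
  · intro u hu v hv huv
    rw [Finset.mem_coe] at hu hv
    have h1 := (hf u hu).2
    have h2 := (hf v hv).2
    rw [huv, h2] at h1
    exact (Finset.singleton_injective h1).symm

theorem card_filter_inter (R : Finset (Finset α)) (S : Finset α) :
    (R.filter (fun e => ¬ (e ∩ S).Nonempty)).card + (R.filter (fun e => (e ∩ S).Nonempty)).card
      = R.card := by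
  have := Finset.card_filter_add_card_filter_not (s := R) (fun e => (e ∩ S).Nonempty)
  omega

end Ops


/-! ### The main induction -/

section Main

/-- The induction predicate. -/
def P (n D0 : ℕ) (α : Type*) [DecidableEq α] (k : ℕ) : Prop :=
  ∀ (B A C : Finset α) (π : α → α) (R : Finset (Finset α)) (t : ℕ), St B A C π R →
    A.card + C.card ≤ n → t + 1 ≤ A.card → k + 2 ≤ A.card + C.card →
    2 * k + 4 + D0 + 2 * R.card ≤ A.card + 3 * t + 2 * C.card →
    (t + 3 ≤ A.card → (2 : ℝ) ^ (k + 1) * (k + 1) ≤ 2 ^ C.card * z R A t) →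
    L k (Fam B A C π R t)

variable {B A C : Finset α} {π : α → α} {R : Finset (Finset α)} {t n D0 k : ℕ}

/-- States for which the weight condition is automatic. -/
theorem auto (hD : 6 ≤ D0)
    (hnum : (8 : ℝ) ^ n * (2 * ((n : ℝ) / 4) + 1) ^ 3 ≤
      (50 / 13 : ℝ) ^ (n + D0 - 6) * (63 / 50 : ℝ) ^ (3 * n)) (hP : P n D0 α k) :
    ∀ (r : ℕ) (A C : Finset α) (π : α → α) (R : Finset (Finset α)) (t : ℕ), R.card = r →
    St B A C π R → A.card + C.card ≤ n → t + 1 ≤ A.card → k + 2 ≤ A.card + C.card →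
    2 * k + 4 + D0 + 2 * R.card ≤ A.card + 3 * t + 2 * C.card →
    A.card + 2 * R.card + D0 ≤ 3 * t + 6 → L k (Fam B A C π R t) := by
  intro r
  induction r with
  | zero =>
    intro A C π R t hr h hn hg h0 h1 h2
    refine hP B A C π R t h hn hg h0 h1 (fun _ => ?_)
    rw [Finset.card_eq_zero] at hr
    have hA := lemmaA (t := t) (n := n) (D0 := D0) (Λ := (n : ℝ) / 4) h.hR h.hcard
      (by intro e he; rw [hr] at he; exact absurd he (Finset.notMem_empty _))
      (by omega) hD h2 (by positivity) hnum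
    have h3 : (2 : ℝ) ^ (k + 1) * 2 ≤ 2 ^ A.card * 2 ^ C.card := by
      rw [← pow_succ, ← pow_add]
      exact pow_le_pow_right₀ (by norm_num) (by omega)
    have h4 : ((k : ℝ) + 1) ≤ n := by
      have : k + 1 ≤ n := by omega
      exact_mod_cast this
    calc (2 : ℝ) ^ (k + 1) * (k + 1) ≤ 2 ^ (k + 1) * n := by gcongr
      _ = (2 ^ (k + 1) * 2) * (2 * ((n : ℝ) / 4)) := by ring
      _ ≤ (2 ^ A.card * 2 ^ C.card) * (2 * ((n : ℝ) / 4)) := by gcongr
      _ = 2 ^ C.card * (2 ^ A.card * (2 * ((n : ℝ) / 4))) := by ring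
      _ ≤ 2 ^ C.card * z R A t := by gcongr
  | succ r ih =>
    intro A C π R t hr h hn hg h0 h1 h2
    by_cases hiso : ∃ e ∈ R, e.card = 2 ∧ ∀ f ∈ R, f ≠ e → Disjoint e f
    · obtain ⟨e, he, hec, hdis⟩ := hiso
      obtain ⟨x, y, hxy, rfl⟩ := Finset.card_eq_two.1 hec
      have hxA : x ∈ A := h.hR _ he (by simp)
      have hyA : y ∈ A := h.hR _ he (by simp)
      have hxR : ∀ f ∈ R.erase {x, y}, x ∉ f := by
        intro f hf hxf
        rw [Finset.mem_erase] at hf
        exact Finset.disjoint_left.1 (hdis f hf.2 hf.1) (by simp) hxf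
      have hyR : ∀ f ∈ R.erase {x, y}, y ∉ f := by
        intro f hf hyf
        rw [Finset.mem_erase] at hf
        exact Finset.disjoint_left.1 (hdis f hf.2 hf.1) (by simp) hyf
      have hxC : ∀ c ∈ C, π c ≠ x := fun c hc hcx => h.htok c hc _ he (by simp [hcx])
      have hyC : ∀ c ∈ C, π c ≠ y := fun c hc hcy => h.htok c hc _ he (by simp [hcy])
      have hSt' : St B A C π (R.erase {x, y}) :=
        ⟨h.hBA, h.hBC, h.hAC, h.hπ, h.hinj, fun f hf => h.hR f (Finset.mem_of_mem_erase hf),
          fun f hf => h.hcard f (Finset.mem_of_mem_erase hf),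
          fun c hc f hf => h.htok c hc f (Finset.mem_of_mem_erase hf)⟩
      have hSt := hSt'.reserve hxA hyA hxy hxR hyR hxC hyC
      have hxC' : x ∉ C := fun hc => (Finset.disjoint_left.1 h.hAC) hxA hc
      have hAe : (A.erase x).card + 1 = A.card := Finset.card_erase_add_one hxA
      have hCe : (insert x C).card = C.card + 1 := Finset.card_insert_of_notMem hxC'
      have hRe : (R.erase {x, y}).card + 1 = R.card := Finset.card_erase_add_one he
      have hA2 : 2 ≤ A.card := by
        rw [← hec]; exact Finset.card_le_card (h.hR _ he)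
      obtain ⟨t', rfl⟩ : ∃ t', t = t' + 1 := ⟨t - 1, by omega⟩
      have hL := ih (A.erase x) (insert x C) (Function.update π x y) (R.erase {x, y}) t'
        (by omega) hSt (by omega) (by omega) (by omega) (by omega) (by omega)
      refine L_mono ?_ hL
      intro D hD
      obtain ⟨hD1, hD2⟩ := Fam_reserve hSt' hxA t' hD
      obtain ⟨a1, a2, a3, a4, a5⟩ := hD1
      refine ⟨a1, a2, a3, ?_, a5⟩
      intro f hf
      by_cases hfe : f = {x, y}
      · rw [hfe]; exact hD2
      · exact a4 f (Finset.mem_erase.2 ⟨hfe, hf⟩)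
    · push Not at hiso
      refine hP B A C π R t h hn hg h0 h1 (fun _ => ?_)
      have hA := lemmaA (t := t) (n := n) (D0 := D0) (Λ := (n : ℝ) / 4) h.hR h.hcard
        (by
          intro e he he2
          obtain ⟨f, hf1, hf2, hf3⟩ := hiso e he he2
          exact ⟨f, hf1, hf2, hf3⟩)
        (by omega) hD h2 (by positivity) hnum
      have h3 : (2 : ℝ) ^ (k + 1) * 2 ≤ 2 ^ A.card * 2 ^ C.card := by
        rw [← pow_succ, ← pow_add]
        exact pow_le_pow_right₀ (by norm_num) (by omega)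
      have h4 : ((k : ℝ) + 1) ≤ n := by
        have : k + 1 ≤ n := by omega
        exact_mod_cast this
      calc (2 : ℝ) ^ (k + 1) * (k + 1) ≤ 2 ^ (k + 1) * n := by gcongr
        _ = (2 ^ (k + 1) * 2) * (2 * ((n : ℝ) / 4)) := by ring
        _ ≤ (2 ^ A.card * 2 ^ C.card) * (2 * ((n : ℝ) / 4)) := by gcongr
        _ = 2 ^ C.card * (2 ^ A.card * (2 * ((n : ℝ) / 4))) := by ring
        _ ≤ 2 ^ C.card * z R A t := by gcongr

/-- Negative answer. -/
theorem neg_case (hP : P n D0 α k) (h : St B A C π R) (hn : A.card + C.card ≤ n)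
    (hg : t + 3 ≤ A.card)
    (h1 : 2 * (k + 1) + 4 + D0 + 2 * R.card ≤ A.card + 3 * t + 2 * C.card)
    (hz : (2 : ℝ) ^ (k + 2) * (k + 2) ≤ 2 ^ C.card * z R A t)
    {S U : Finset α} (hS : S ⊆ A) (hSc : S.card ≤ 2) (hSC : ∀ c ∈ C, π c ∉ S)
    (hSR : ∀ e ∈ R, ¬ e ⊆ S) (hU : ∀ u, u ∈ U ↔ ∃ e ∈ R, e \ S = {u})
    (hE : 2 * U.card ≤ (R.filter (fun e => (e ∩ U).Nonempty)).card)
    (hs : k + 2 + S.card + U.card ≤ A.card + C.card)
    (hzS : z R A t ≤ 2 * z R (A \ S) t) :
    L k {D | D ∈ Fam B A C π R t ∧ ¬ (S ∩ D).Nonempty} := by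
  have hzpos : 0 < z R A t := by
    by_contra hneg
    have h0 : z R A t ≤ 0 := not_lt.1 hneg
    have : (0 : ℝ) < 2 ^ (k + 2) * (k + 2) := by positivity
    have h3 : (2 : ℝ) ^ C.card * z R A t ≤ 0 :=
      mul_nonpos_of_nonneg_of_nonpos (by positivity) h0
    linarith
  have hz0 : z R (A \ S) t ≠ 0 := by
    intro h0; rw [h0] at hzS; linarith
  obtain ⟨hf1, hf2⟩ := z_forced R A S U t h.hR hU
  have hUt : U.card ≤ t := hf1 hz0
  have hzeq := hf2 hUt
  have hUA : U ⊆ A \ S := forced_sub h hU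
  have hdisj : Disjoint S U := by
    rw [Finset.disjoint_right]
    intro x hx
    exact (Finset.mem_sdiff.1 (hUA hx)).2
  have hSU : S ∪ U ⊆ A := Finset.union_subset hS (hUA.trans Finset.sdiff_subset)
  have hcA : (A \ (S ∪ U)).card + S.card + U.card = A.card := by
    have h5 := Finset.card_sdiff_add_card_eq_card hSU
    rw [Finset.card_union_of_disjoint hdisj] at h5
    omega
  have hRc := card_R_neg R S U
  refine L_mono (Fam_neg h hS hU hUt) ?_
  refine hP _ _ _ _ _ _ (h.neg hSC hSR hU) (by omega) (by omega) (by omega) (by omega)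
    (fun _ => ?_)
  rw [← hzeq]
  have h5 : (2 : ℝ) ^ (k + 2) * (k + 2) = 2 * (2 ^ (k + 1) * (k + 1)) + 2 ^ (k + 2) := by ring
  have h6 : (2 : ℝ) ^ C.card * z R A t ≤ 2 ^ C.card * (2 * z R (A \ S) t) := by gcongr
  have h7 : (0 : ℝ) < 2 ^ (k + 2) := by positivity
  nlinarith

end Main


section Main2

variable {B A C : Finset α} {π : α → α} {R : Finset (Finset α)} {t n D0 k : ℕ}

/-- Making one element defective. -/
theorem bad_L {S : Finset α} {v : α} (h : St B A C π R) (hv : v ∈ A) (hvS : v ∈ S)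
    (hL : L k (Fam (insert v B) (A.erase v) C π (R.filter (fun e => v ∉ e)) t)) :
    L k {D | D ∈ Fam B A C π R (t + 1) ∧ (S ∩ D).Nonempty} := by
  refine L_mono ?_ hL
  intro D hD
  obtain ⟨h1, h2⟩ := Fam_bad h hv t hD
  exact ⟨h1, v, Finset.mem_inter.2 ⟨hvS, h2⟩⟩

/-- A test consisting of one element which is not fresh. -/
theorem single_case (hD : 6 ≤ D0)
    (hnum : (8 : ℝ) ^ n * (2 * ((n : ℝ) / 4) + 1) ^ 3 ≤
      (50 / 13 : ℝ) ^ (n + D0 - 6) * (63 / 50 : ℝ) ^ (3 * n)) (hP : P n D0 α k)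
    (h : St B A C π R) (hn : A.card + C.card ≤ n)
    (hg : t + 3 ≤ A.card) (h0 : k + 3 ≤ A.card + C.card)
    (h1 : 2 * (k + 1) + 4 + D0 + 2 * R.card ≤ A.card + 3 * t + 2 * C.card)
    (hz : (2 : ℝ) ^ (k + 2) * (k + 2) ≤ 2 ^ C.card * z R A t)
    {v : α} (hv : v ∈ A) (hvC : ∀ c ∈ C, π c ≠ v) (hvR : ∃ e ∈ R, v ∈ e) :
    L k {D | D ∈ Fam B A C π R t ∧ (({v} : Finset α) ∩ D).Nonempty} ∨
    L k {D | D ∈ Fam B A C π R t ∧ ¬ (({v} : Finset α) ∩ D).Nonempty} := by
  have hzpos : 0 < z R A t := by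
    by_contra hneg
    have h0 : z R A t ≤ 0 := not_lt.1 hneg
    have : (0 : ℝ) < 2 ^ (k + 2) * (k + 2) := by positivity
    have h3 : (2 : ℝ) ^ C.card * z R A t ≤ 0 :=
      mul_nonpos_of_nonneg_of_nonpos (by positivity) h0
    linarith
  obtain ⟨t, rfl⟩ : ∃ t', t = t' + 1 := by
    obtain ⟨X, hXA, hXt, hXR⟩ := exists_of_z_pos hzpos
    obtain ⟨e, he, hve⟩ := hvR
    obtain ⟨x, hx⟩ := hXR e he
    have : 0 < X.card := Finset.card_pos.2 ⟨x, (Finset.mem_inter.1 hx).2⟩
    exact ⟨t - 1, by omega⟩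
  have hAe : (A.erase v).card + 1 = A.card := Finset.card_erase_add_one hv
  have hsplit := z_split R A {v} (t + 1)
  have hfil : (R.filter (fun e => ¬ (e ∩ {v}).Nonempty)) = R.filter (fun e => v ∉ e) := by
    apply Finset.filter_congr
    intro e _
    constructor
    · intro hh hve
      exact hh ⟨v, by simp [hve]⟩
    · rintro hh ⟨x, hx⟩
      simp only [Finset.mem_inter, Finset.mem_singleton] at hx
      exact hh (hx.2 ▸ hx.1)
  have hRv : (R.filter (fun e => v ∉ e)).card + 1 ≤ R.card := by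
    obtain ⟨e, he, hve⟩ := hvR
    have hlt : (R.filter (fun e => v ∉ e)).card < R.card := by
      apply Finset.card_lt_card
      rw [Finset.filter_ssubset]
      exact ⟨e, he, by simpa using hve⟩
    omega
  have hRfil := card_filter_inter R {v}
  rw [hfil] at hRfil
  by_cases hzv : z R A (t + 1) ≤ 2 * z (insert {v} R) A (t + 1)
  · left
    apply bad_L h hv (Finset.mem_singleton_self v)
    refine hP _ _ _ _ _ _ (h.bad hv hvC) (by omega) (by omega) (by omega) (by omega)
      (fun _ => ?_)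
    rw [← z_bad R A t hv]
    have h5 : (2 : ℝ) ^ (k + 2) * (k + 2) = 2 * (2 ^ (k + 1) * (k + 1)) + 2 ^ (k + 2) := by ring
    have h6 : (2 : ℝ) ^ C.card * z R A (t + 1) ≤ 2 ^ C.card * (2 * z (insert {v} R) A (t + 1)) := by
      gcongr
    have h7 : (0 : ℝ) < 2 ^ (k + 2) := by positivity
    nlinarith
  · rw [not_le] at hzv
    classical
    let U : Finset α := A.filter (fun u => ∃ e ∈ R, e \ {v} = {u})
    have hU : ∀ u, u ∈ U ↔ ∃ e ∈ R, e \ {v} = {u} := by
      intro u
      rw [Finset.mem_filter]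
      refine ⟨fun hh => hh.2, fun hh => ⟨?_, hh⟩⟩
      obtain ⟨e, he, hes⟩ := hh
      have : u ∈ e \ {v} := by rw [hes]; exact Finset.mem_singleton_self _
      exact h.hR e he (Finset.mem_sdiff.1 this).1
    have hcard2 : ∀ e ∈ R, 2 ≤ e.card := by
      intro e he; rcases h.hcard e he with h2 | h2 <;> omega
    have hSR : ∀ e ∈ R, ¬ e ⊆ ({v} : Finset α) := by
      intro e he hsub
      have := Finset.card_le_card hsub
      have := hcard2 e he
      simp at *
      omega
    have hE : 2 * U.card ≤ (R.filter (fun e => (e ∩ U).Nonempty)).card := by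
      by_contra hlt
      have := lemmaJ (t + 1) (S := {v}) (A := A) (by simpa using hv) h.hR hcard2 hSR U hU
        (by omega) (by omega)
      linarith
    by_cases hs : k + 3 + U.card ≤ A.card + C.card
    · right
      refine neg_case hP h hn hg h1 hz (S := {v}) (U := U) (by simpa using hv) (by simp) ?_ hSR hU hE
        (by rw [Finset.card_singleton]; omega) (by linarith)
      intro c hc hcv
      exact hvC c hc (Finset.mem_singleton.1 hcv)
    · left
      apply bad_L h hv (Finset.mem_singleton_self v)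
      have hUle := card_forced_le (R := R) (S := {v}) hcard2 hU
      exact auto hD hnum hP _ _ _ _ _ _ rfl (h.bad hv hvC) (by omega) (by omega) (by omega)
        (by omega) (by omega)

/-- A test consisting of two elements. -/
theorem pair_case (hD : 6 ≤ D0)
    (hnum : (8 : ℝ) ^ n * (2 * ((n : ℝ) / 4) + 1) ^ 3 ≤
      (50 / 13 : ℝ) ^ (n + D0 - 6) * (63 / 50 : ℝ) ^ (3 * n)) (hP : P n D0 α k)
    (h : St B A C π R) (hn : A.card + C.card ≤ n)
    (hg : t + 3 ≤ A.card) (h0 : k + 3 ≤ A.card + C.card)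
    (h1 : 2 * (k + 1) + 4 + D0 + 2 * R.card ≤ A.card + 3 * t + 2 * C.card)
    (hz : (2 : ℝ) ^ (k + 2) * (k + 2) ≤ 2 ^ C.card * z R A t)
    {v w : α} (hv : v ∈ A) (hw : w ∈ A) (hvw : v ≠ w) (hvC : ∀ c ∈ C, π c ≠ v)
    (hwC : ∀ c ∈ C, π c ≠ w) (hSR : ∀ e ∈ R, ¬ e ⊆ ({v, w} : Finset α)) :
    L k {D | D ∈ Fam B A C π R t ∧ (({v, w} : Finset α) ∩ D).Nonempty} ∨
    L k {D | D ∈ Fam B A C π R t ∧ ¬ (({v, w} : Finset α) ∩ D).Nonempty} := by
  have hzpos : 0 < z R A t := by
    by_contra hneg
    have h0 : z R A t ≤ 0 := not_lt.1 hneg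
    have : (0 : ℝ) < 2 ^ (k + 2) * (k + 2) := by positivity
    have h3 : (2 : ℝ) ^ C.card * z R A t ≤ 0 :=
      mul_nonpos_of_nonneg_of_nonpos (by positivity) h0
    linarith
  have hS2 : ({v, w} : Finset α).card = 2 := Finset.card_pair hvw
  have hSA : ({v, w} : Finset α) ⊆ A := by
    intro x hx
    simp only [Finset.mem_insert, Finset.mem_singleton] at hx
    rcases hx with rfl | rfl
    · exact hv
    · exact hw
  have hSC : ∀ c ∈ C, π c ∉ ({v, w} : Finset α) := by
    intro c hc hcv
    simp only [Finset.mem_insert, Finset.mem_singleton] at hcv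
    rcases hcv with hcv | hcv
    · exact hvC c hc hcv
    · exact hwC c hc hcv
  have hcard2 : ∀ e ∈ R, 2 ≤ e.card := by
    intro e he; rcases h.hcard e he with h2 | h2 <;> omega
  have hsplit := z_split R A {v, w} t
  have hwA' : w ∈ A.erase v := Finset.mem_erase.2 ⟨hvw.symm, hw⟩
  have hAe : (A.erase v).card + 1 = A.card := Finset.card_erase_add_one hv
  have hAe2 : ((A.erase v).erase w).card + 1 = (A.erase v).card := Finset.card_erase_add_one hwA'
  have hRins : (insert ({v, w} : Finset α) R).card ≤ R.card + 1 := Finset.card_insert_le _ _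
  classical
  let U : Finset α := A.filter (fun u => ∃ e ∈ R, e \ {v, w} = {u})
  have hU : ∀ u, u ∈ U ↔ ∃ e ∈ R, e \ {v, w} = {u} := by
    intro u
    rw [Finset.mem_filter]
    refine ⟨fun hh => hh.2, fun hh => ⟨?_, hh⟩⟩
    obtain ⟨e, he, hes⟩ := hh
    have : u ∈ e \ {v, w} := by rw [hes]; exact Finset.mem_singleton_self _
    exact h.hR e he (Finset.mem_sdiff.1 this).1
  by_cases hfresh : ∀ e ∈ R, v ∉ e ∧ w ∉ e
  · -- both fresh
    by_cases hs : k + 4 ≤ A.card + C.card
    · right
      have hU0 : U = ∅ := by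
        rw [Finset.eq_empty_iff_forall_notMem]
        intro u hu
        obtain ⟨e, he, hes⟩ := (hU u).1 hu
        have h2 : e \ {v, w} = e := by
          rw [Finset.sdiff_eq_self_iff_disjoint]
          rw [Finset.disjoint_right]
          intro x hx
          simp only [Finset.mem_insert, Finset.mem_singleton] at hx
          rcases hx with rfl | rfl
          · exact (hfresh e he).1
          · exact (hfresh e he).2
        rw [h2] at hes
        have h3 := hcard2 e he
        rw [hes, Finset.card_singleton] at h3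
        omega
      have hz1 := z_fresh (R := R) (A := A) t hv (fun e he => (hfresh e he).1)
      have hz2 := z_fresh (R := R) (A := A.erase v) t hwA' (fun e he => (hfresh e he).2)
      have hsd : A \ {v, w} = (A.erase v).erase w := by
        ext x
        simp only [Finset.mem_sdiff, Finset.mem_insert, Finset.mem_singleton, Finset.mem_erase]
        tauto
      refine neg_case hP h hn hg h1 hz (S := {v, w}) (U := U) hSA (by omega) hSC hSR hU
        (by rw [hU0]; simp) (by rw [hU0, Finset.card_empty]; omega) ?_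
      rw [hsd]
      have := z_nonneg R ((A.erase v).erase w) t
      nlinarith
    · left
      have hxC' : v ∉ C := fun hc => (Finset.disjoint_left.1 h.hAC) hv hc
      have hCe : (insert v C).card = C.card + 1 := Finset.card_insert_of_notMem hxC'
      obtain ⟨t, rfl⟩ : ∃ t', t = t' + 1 := ⟨t - 1, by omega⟩
      refine L_mono (Fam_reserve (y := w) h hv t) ?_
      have hSt := h.reserve hv hw hvw (fun e he => (hfresh e he).1)
        (fun e he => (hfresh e he).2) hvC hwC
      exact auto hD hnum hP _ _ _ _ _ _ rfl hSt (by omega) (by omega) (by omega)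
        (by omega) (by omega)
  · by_cases hzv : z R A t ≤ 2 * z (insert {v, w} R) A t
    · left
      refine L_mono (Fam_add _ t) ?_
      refine hP _ _ _ _ _ _ (h.add hSA (Or.inl hS2) hSC) (by omega) (by omega) (by omega)
        (by omega) (fun _ => ?_)
      have h5 : (2 : ℝ) ^ (k + 2) * (k + 2) = 2 * (2 ^ (k + 1) * (k + 1)) + 2 ^ (k + 2) := by ring
      have h6 : (2 : ℝ) ^ C.card * z R A t ≤ 2 ^ C.card * (2 * z (insert {v, w} R) A t) := by
        gcongr
      have h7 : (0 : ℝ) < 2 ^ (k + 2) := by positivity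
      nlinarith
    · rw [not_le] at hzv
      have hE : 2 * U.card ≤ (R.filter (fun e => (e ∩ U).Nonempty)).card := by
        by_contra hlt
        have := lemmaJ t (S := {v, w}) (A := A) hSA h.hR hcard2 hSR U hU
          (by omega) (by omega)
        linarith
      by_cases hs : k + 4 + U.card ≤ A.card + C.card
      · right
        exact neg_case hP h hn hg h1 hz (S := {v, w}) (U := U) hSA (by omega) hSC hSR hU hE
          (by omega) (by linarith)
      · left
        by_cases hs0 : A.card + C.card ≤ k + 3 ∨ U.card ≤ 2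
        · refine L_mono (Fam_add _ t) ?_
          exact auto hD hnum hP _ _ _ _ _ _ rfl (h.add hSA (Or.inl hS2) hSC) (by omega) (by omega)
            (by omega) (by omega) (by omega)
        · push Not at hs0
          have hUle := card_forced_le (R := R) (S := {v, w}) hcard2 hU
          have hRfil := card_filter_inter R {v, w}
          have hfil : (R.filter (fun e => ¬ (e ∩ {v, w}).Nonempty)) =
              (R.filter (fun e => v ∉ e)).filter (fun e => w ∉ e) := by
            rw [Finset.filter_filter]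
            apply Finset.filter_congr
            intro e _
            constructor
            · intro hh
              exact ⟨fun hve => hh ⟨v, by simp [hve]⟩, fun hwe => hh ⟨w, by simp [hwe]⟩⟩
            · rintro ⟨hh1, hh2⟩ ⟨x, hx⟩
              simp only [Finset.mem_inter, Finset.mem_insert, Finset.mem_singleton] at hx
              rcases hx with ⟨hx1, rfl | rfl⟩
              · exact hh1 hx1
              · exact hh2 hx1
          rw [hfil] at hRfil
          obtain ⟨t, rfl⟩ : ∃ t', t = t' + 2 := ⟨t - 2, by omega⟩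
          have hSt1 := h.bad hv hvC
          have hSt2 := hSt1.bad hwA' hwC
          refine L_mono ?_ (auto hD hnum hP _ _ _ _ _ t rfl hSt2 (by omega) (by omega)
            (by omega) (by omega) (by omega))
          intro D hD
          obtain ⟨hD1, hD2⟩ := Fam_bad hSt1 hwA' t hD
          obtain ⟨hD3, hD4⟩ := Fam_bad h hv (t + 1) hD1
          exact ⟨hD3, v, by simp [hD4]⟩

/-- If at most one `t`-set is hitting, then the weight is at most one. -/
theorem z_small (hg : t + 1 ≤ A.card) (hN : NN R A t ≤ 1) : z R A t ≤ 1 := by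
  have hall : ∀ X ∈ (hit R A).filter (fun X => X.card ≤ t), X.card = t := by
    intro X hX
    rw [Finset.mem_filter, hit, Finset.mem_filter, Finset.mem_powerset] at hX
    obtain ⟨⟨hXA, hXR⟩, hXt⟩ := hX
    by_contra hne
    have hlt : X.card < t := lt_of_le_of_ne hXt hne
    obtain ⟨Y1, hXY, hYA, hYc⟩ := Finset.exists_subsuperset_card_eq hXA hXt (by omega : t ≤ A.card)
    obtain ⟨y, hy1, hy2⟩ : ∃ y ∈ Y1, y ∉ X := by
      by_contra hcon
      push Not at hcon
      have := Finset.card_le_card (show Y1 ⊆ X from hcon)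
      omega
    obtain ⟨w, hw1, hw2⟩ : ∃ w ∈ A, w ∉ Y1 := by
      by_contra hcon
      push Not at hcon
      have := Finset.card_le_card (show A ⊆ Y1 from hcon)
      omega
    have hwe : w ∉ Y1.erase y := fun hh => hw2 (Finset.mem_of_mem_erase hh)
    have hmem1 : Y1 ∈ (hit R A).filter (fun X => X.card = t) := by
      rw [Finset.mem_filter, hit, Finset.mem_filter, Finset.mem_powerset]
      refine ⟨⟨hYA, fun e he => ?_⟩, hYc⟩
      obtain ⟨x, hx⟩ := hXR e he
      rw [Finset.mem_inter] at hx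
      exact ⟨x, Finset.mem_inter.2 ⟨hx.1, hXY hx.2⟩⟩
    have hmem2 : insert w (Y1.erase y) ∈ (hit R A).filter (fun X => X.card = t) := by
      rw [Finset.mem_filter, hit, Finset.mem_filter, Finset.mem_powerset]
      refine ⟨⟨?_, fun e he => ?_⟩, ?_⟩
      · intro x hx
        rw [Finset.mem_insert] at hx
        rcases hx with rfl | hx
        · exact hw1
        · exact hYA (Finset.mem_of_mem_erase hx)
      · obtain ⟨x, hx⟩ := hXR e he
        rw [Finset.mem_inter] at hx
        refine ⟨x, Finset.mem_inter.2 ⟨hx.1, Finset.mem_insert_of_mem (Finset.mem_erase.2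
          ⟨?_, hXY hx.2⟩)⟩⟩
        rintro rfl
        exact hy2 hx.2
      · rw [Finset.card_insert_of_notMem hwe, Finset.card_erase_of_mem hy1]
        have : 0 < Y1.card := Finset.card_pos.2 ⟨y, hy1⟩
        omega
    have hne' : Y1 ≠ insert w (Y1.erase y) := by
      intro hh
      exact hw2 (hh ▸ Finset.mem_insert_self _ _)
    have h2 : 1 < ((hit R A).filter (fun X => X.card = t)).card :=
      Finset.one_lt_card.2 ⟨_, hmem1, _, hmem2, hne'⟩
    unfold NN at hN
    omega
  have hfe : (hit R A).filter (fun X => X.card ≤ t) = (hit R A).filter (fun X => X.card = t) := by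
    apply Finset.filter_congr
    intro X hX
    constructor
    · intro hh
      exact hall X (Finset.mem_filter.2 ⟨hX, hh⟩)
    · intro hh; omega
  unfold z
  rw [hfe]
  have : ∀ X ∈ (hit R A).filter (fun X => X.card = t), (50 / 13 : ℝ) ^ (t - X.card) = 1 := by
    intro X hX
    rw [Finset.mem_filter] at hX
    rw [hX.2]; simp
  rw [Finset.sum_congr rfl this, Finset.sum_const, nsmul_eq_mul, mul_one]
  unfold NN at hN
  exact_mod_cast hN

theorem hRC_of_St (h : St B A C π R) : ∀ e ∈ R, ∀ c ∈ C, c ∉ e ∧ π c ∉ e := by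
  intro e he c hc
  exact ⟨fun hce => Finset.disjoint_left.1 h.hAC (h.hR e he hce) hc, h.htok c hc e he⟩

theorem main_step (hD : 6 ≤ D0)
    (hnum : (8 : ℝ) ^ n * (2 * ((n : ℝ) / 4) + 1) ^ 3 ≤
      (50 / 13 : ℝ) ^ (n + D0 - 6) * (63 / 50 : ℝ) ^ (3 * n)) (hP : P n D0 α k) :
    P n D0 α (k + 1) := by
  intro B A C π R t h hn hg h0 h1 hz
  by_cases hg1 : A.card = t + 1
  · exact g1 h hg1 h0
  by_cases hg2 : A.card = t + 2
  · exact g2 h hg2 h0 (by omega)
  have hg3 : t + 3 ≤ A.card := by omega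
  have hz := hz hg3
  push_cast at hz
  by_cases hQ : 2 ^ (k + 1) < 2 ^ C.card * NN R A t
  · exact lemmaQ (k + 1) B A C π R t h.hBA h.hBC h.hAC h.hπ h.hinj (hRC_of_St h) hg hQ
  rw [not_lt] at hQ
  have hzk : (2 : ℝ) ^ (k + 1) * (k + 1) ≤ 2 ^ C.card * z R A t := by
    have h7 : (0 : ℝ) < 2 ^ (k + 1) := by positivity
    have h8 : (0 : ℝ) ≤ k := by positivity
    have h5 : (2 : ℝ) ^ (k + 1 + 1) * (k + 1 + 1) =
      2 ^ (k + 1) * (k + 1) + 2 ^ (k + 1) * (k + 3) := by ring
    nlinarith
  have hz' : (2 : ℝ) ^ (k + 2) * (k + 2) ≤ 2 ^ C.card * z R A t := by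
    have h5 : (2 : ℝ) ^ (k + 1 + 1) * (k + 1 + 1) = 2 ^ (k + 2) * (k + 2) := by ring
    rw [← h5]; exact hz
  have hsame : L k (Fam B A C π R t) :=
    hP _ _ _ _ _ _ h hn hg (by omega) (by omega) (fun _ => hzk)
  intro S
  -- tests meeting `B`
  by_cases hSB : (S ∩ B).Nonempty
  · left
    refine L_mono ?_ hsame
    intro D hD
    obtain ⟨x, hx⟩ := hSB
    rw [Finset.mem_inter] at hx
    exact ⟨hD, x, Finset.mem_inter.2 ⟨hx.1, hD.1 hx.2⟩⟩
  -- tests touching a pair
  by_cases hSC : ∃ c ∈ C, c ∈ S ∨ π c ∈ S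
  · obtain ⟨c, hc, hcS⟩ := hSC
    left
    refine touch h.hBA h.hBC h.hAC h.hπ h.hinj (hRC_of_St h) hc hcS ?_
    have hCe : (C.erase c).card + 1 = C.card := Finset.card_erase_add_one hc
    refine hP _ _ _ _ _ _ (h.touch hc) (by omega) (by omega) (by omega) (by omega) (fun _ => ?_)
    have h5 : (2 : ℝ) ^ (k + 2) * (k + 2) = 2 * (2 ^ (k + 1) * (k + 1)) + 2 ^ (k + 2) := by ring
    have h7 : (0 : ℝ) < 2 ^ (k + 2) := by positivity
    have h8 : (2 : ℝ) ^ C.card * z R A t = 2 * (2 ^ (C.erase c).card * z R A t) := by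
      rw [← hCe, pow_succ]; ring
    linarith
  push Not at hSC
  -- reduction to a subset of `A`
  have hred : ∀ D ∈ Fam B A C π R t, S ∩ D = (S ∩ A) ∩ D := by
    intro D hD
    ext x
    simp only [Finset.mem_inter]
    constructor
    · rintro ⟨hxS, hxD⟩
      have := hD.2.1 hxD
      simp only [Finset.mem_union] at this
      rcases this with (hB | hA) | hC
      · exact absurd ⟨x, Finset.mem_inter.2 ⟨hxS, hB⟩⟩ hSB
      · exact ⟨⟨hxS, hA⟩, hxD⟩
      · exact absurd hxS (hSC x hC).1
    · rintro ⟨⟨hxS, _⟩, hxD⟩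
      exact ⟨hxS, hxD⟩
  have hgoal : (L k {D | D ∈ Fam B A C π R t ∧ ((S ∩ A) ∩ D).Nonempty} ∨
      L k {D | D ∈ Fam B A C π R t ∧ ¬ ((S ∩ A) ∩ D).Nonempty}) →
      (L k {D | D ∈ Fam B A C π R t ∧ (S ∩ D).Nonempty} ∨
      L k {D | D ∈ Fam B A C π R t ∧ ¬ (S ∩ D).Nonempty}) := by
    rintro (hh | hh)
    · left
      refine L_mono ?_ hh
      rintro D ⟨hD1, hD2⟩
      exact ⟨hD1, by rw [hred D hD1]; exact hD2⟩
    · right
      refine L_mono ?_ hh
      rintro D ⟨hD1, hD2⟩
      exact ⟨hD1, by rw [hred D hD1]; exact hD2⟩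
  apply hgoal
  have hTA : S ∩ A ⊆ A := Finset.inter_subset_right
  have hTC : ∀ c ∈ C, π c ∉ S ∩ A := fun c hc hh => (hSC c hc).2 (Finset.mem_inter.1 hh).1
  generalize S ∩ A = T at hTA hTC
  by_cases hTR : ∃ e ∈ R, e ⊆ T
  · left
    obtain ⟨e, he, heT⟩ := hTR
    refine L_mono ?_ hsame
    intro D hD
    obtain ⟨x, hx⟩ := hD.2.2.2.1 e he
    rw [Finset.mem_inter] at hx
    exact ⟨hD, x, Finset.mem_inter.2 ⟨heT hx.1, hx.2⟩⟩
  push Not at hTR
  rcases Nat.lt_or_ge 2 T.card with hT3 | hT3
  · -- at least three elements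
    left
    obtain ⟨T', hT'T, hT'c⟩ := Finset.exists_subset_card_eq hT3
    have hT'A : T' ⊆ A := hT'T.trans hTA
    have hRins : (insert T' R).card ≤ R.card + 1 := Finset.card_insert_le _ _
    have hL : L k (Fam B A C π (insert T' R) t) := by
      refine hP _ _ _ _ _ _ (h.add hT'A (Or.inr hT'c) (fun c hc hh => hTC c hc (hT'T hh)))
        (by omega) (by omega) (by omega) (by omega) (fun _ => ?_)
      have h2 := z_triple R A T' t hT'A hT'c
      have h3 := z_split R A T' t
      have h4 : (2 : ℝ) ^ C.card * NN R A t ≤ 2 ^ (k + 1) := by exact_mod_cast hQ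
      have h5 : (2 : ℝ) ^ (k + 2) * (k + 2) = 2 * (2 ^ (k + 1) * (k + 1)) + 2 * 2 ^ (k + 1) := by
        ring
      have h6 : (0 : ℝ) < 2 ^ C.card := by positivity
      have h7 : (2 : ℝ) ^ C.card * (2 * z (insert T' R) A t) ≥
          2 ^ C.card * (z R A t - (51 / 50 : ℝ) * NN R A t) := by
        apply mul_le_mul_of_nonneg_left _ h6.le
        linarith
      have h8 : (0 : ℝ) < 2 ^ (k + 1) := by positivity
      nlinarith
    refine L_mono ?_ hL
    intro D hD
    obtain ⟨hD1, x, hx⟩ := Fam_add _ t hD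
    rw [Finset.mem_inter] at hx
    exact ⟨hD1, x, Finset.mem_inter.2 ⟨hT'T hx.1, hx.2⟩⟩
  interval_cases hTc : T.card
  · -- empty test
    right
    rw [Finset.card_eq_zero] at hTc
    subst hTc
    refine L_mono ?_ hsame
    intro D hD
    exact ⟨hD, by simp⟩
  · obtain ⟨v, rfl⟩ := Finset.card_eq_one.1 hTc
    have hv : v ∈ A := hTA (Finset.mem_singleton_self _)
    have hvC : ∀ c ∈ C, π c ≠ v := fun c hc hh => hTC c hc (by simp [hh])
    by_cases hvR : ∃ e ∈ R, v ∈ e
    · exact single_case hD hnum hP h hn hg3 (by omega) h1 hz' hv hvC hvR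
    · push Not at hvR
      right
      have hU : ∀ u, u ∈ (∅ : Finset α) ↔ ∃ e ∈ R, e \ {v} = {u} := by
        intro u
        refine ⟨fun hh => absurd hh (Finset.notMem_empty _), ?_⟩
        rintro ⟨e, he, hes⟩
        have h2 : e \ {v} = e := by
          rw [Finset.sdiff_eq_self_iff_disjoint, Finset.disjoint_singleton_right]
          exact hvR e he
        rw [h2] at hes
        have h3 := h.hcard e he
        rw [hes, Finset.card_singleton] at h3
        omega
      refine neg_case hP h hn hg3 h1 hz' (S := {v}) (U := ∅) hTA (by simp) hTC hTR hU (by simp)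
        (by simp only [Finset.card_singleton, Finset.card_empty]; omega) ?_
      have hz1 := z_fresh (R := R) (A := A) t hv hvR
      rw [Finset.sdiff_singleton_eq_erase]
      have := z_nonneg R (A.erase v) t
      linarith
  · obtain ⟨v, w, hvw, rfl⟩ := Finset.card_eq_two.1 hTc
    exact pair_case hD hnum hP h hn hg3 (by omega) h1 hz' (hTA (by simp)) (hTA (by simp)) hvw
      (fun c hc hh => hTC c hc (by simp [hh])) (fun c hc hh => hTC c hc (by simp [hh])) hTR

theorem main_zero : P n D0 α 0 := by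
  intro B A C π R t h hn hg h0 h1 hz
  by_cases hg1 : A.card = t + 1
  · exact g1 h hg1 h0
  by_cases hg2 : A.card = t + 2
  · exact g2 h hg2 h0 (by omega)
  have hg3 : t + 3 ≤ A.card := by omega
  have hz := hz hg3
  by_cases hQ : 2 ^ 0 < 2 ^ C.card * NN R A t
  · exact lemmaQ 0 B A C π R t h.hBA h.hBC h.hAC h.hπ h.hinj (hRC_of_St h) hg hQ
  exfalso
  rw [not_lt, pow_zero] at hQ
  rcases Nat.eq_zero_or_pos (NN R A t) with hN | hN
  · -- no hitting sets at all
    have hz0 : ¬ 0 < z R A t := by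
      intro hpos
      obtain ⟨X, hXA, hXt, hXR⟩ := exists_of_z_pos hpos
      obtain ⟨Y1, hXY, hYA, hYc⟩ := Finset.exists_subsuperset_card_eq hXA hXt
        (by omega : t ≤ A.card)
      have : Y1 ∈ (hit R A).filter (fun X => X.card = t) := by
        rw [Finset.mem_filter, hit, Finset.mem_filter, Finset.mem_powerset]
        refine ⟨⟨hYA, fun e he => ?_⟩, hYc⟩
        obtain ⟨x, hx⟩ := hXR e he
        rw [Finset.mem_inter] at hx
        exact ⟨x, Finset.mem_inter.2 ⟨hx.1, hXY hx.2⟩⟩
      have hpos' : 0 < NN R A t := Finset.card_pos.2 ⟨_, this⟩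
      omega
    rw [not_lt] at hz0
    have h3 : (2 : ℝ) ^ C.card * z R A t ≤ 0 :=
      mul_nonpos_of_nonneg_of_nonpos (by positivity) hz0
    norm_num at hz
    linarith
  · have hC1 : 2 ^ C.card ≤ 1 := by
      calc 2 ^ C.card = 2 ^ C.card * 1 := (mul_one _).symm
        _ ≤ 2 ^ C.card * NN R A t := Nat.mul_le_mul_left _ hN
        _ ≤ 1 := hQ
    have hC0 : C.card = 0 := by
      by_contra hne
      have : 2 ^ 1 ≤ 2 ^ C.card := Nat.pow_le_pow_right (by norm_num) (by omega)
      omega
    have hN1 : NN R A t ≤ 1 := by rw [hC0] at hQ; simpa using hQ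
    have hz1 := z_small hg hN1
    rw [hC0] at hz
    norm_num at hz
    linarith

theorem main_all (hD : 6 ≤ D0)
    (hnum : (8 : ℝ) ^ n * (2 * ((n : ℝ) / 4) + 1) ^ 3 ≤
      (50 / 13 : ℝ) ^ (n + D0 - 6) * (63 / 50 : ℝ) ^ (3 * n)) : ∀ k, P n D0 α k := by
  intro k
  induction k with
  | zero => exact main_zero
  | succ k ih => exact main_step hD hnum ih

/-- The adversary survives `n - 2` tests. -/
theorem adversary {d n : ℕ} (hdn : d < n) (hn : n ≤ 3 * d) (hD : 6 ≤ 3 * d - n)
    (hnum : (8 : ℝ) ^ n * (2 * ((n : ℝ) / 4) + 1) ^ 3 ≤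
      (50 / 13 : ℝ) ^ (n + (3 * d - n) - 6) * (63 / 50 : ℝ) ^ (3 * n)) :
    L (n - 2) {D : Finset (Fin n) | D.card = d} := by
  have hSt : St (∅ : Finset (Fin n)) Finset.univ ∅ id ∅ := by
    refine ⟨?_, ?_, ?_, ?_, ?_, ?_, ?_, ?_⟩ <;> simp
  have hAc : (Finset.univ : Finset (Fin n)).card = n := by simp
  have hL := auto (k := n - 2) (n := n) hD hnum (main_all hD hnum (n - 2)) 0
    (B := (∅ : Finset (Fin n))) Finset.univ ∅ id ∅ d (by simp) hSt (by simp) (by simp; omega)
    (by simp; omega) (by simp; omega) (by simp; omega)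
  refine L_mono ?_ hL
  intro D hD'
  have := hD'.2.2.1
  simpa using this

end Main2


/-- **Main theorem.** For all sufficiently large `d` and all `n` with `d < n` and
`n / d ≤ 583 / 200 = 2.915`, the minimal worst-case number of tests is `n - 1`. -/
theorem result :
    ∃ d₀ : ℕ, ∀ d n : ℕ, 0 < d → d₀ ≤ d → d < n → 200 * n ≤ 583 * d →
      sInf {k : ℕ | ∃ f : (Fin k → Bool) → Fin k → Finset (Fin n),
        (∀ h h' : Fin k → Bool, ∀ i : Fin k,
            (∀ j : Fin k, j < i → h j = h' j) → f h i = f h' i) ∧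
        ∀ D D' : Finset (Fin n), D.card = d → D'.card = d →
          ∀ t : Fin k → Bool,
            (∀ i : Fin k, t i = decide ((f t i ∩ D).Nonempty)) →
            (∀ i : Fin k, t i = decide ((f t i ∩ D').Nonempty)) →
            D = D'} = n - 1 := by
  obtain ⟨n₀, hn₀⟩ := num_eventually
  refine ⟨n₀, fun d n hd hd₀ hdn hr => sInf_eq_of_L hd hdn ?_⟩
  obtain ⟨h6, hnum⟩ := hn₀ n (3 * d - n) (by omega) (by omega)
  refine adversary hdn (by omega) h6 (le_trans ?_ hnum)
  have hn : (0 : ℝ) ≤ n := Nat.cast_nonneg n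
  gcongr
  linarith

end Pool.Agent.Results.MP_38cb75_co.LargeRatio
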